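import Mathlib
import Pool.Agent.Lib.MP_257afc_co.Hull

/-!
Pointed irredundant configurations of vectors (homogenised vertices of a polytope): simplex faces,
facets, contraction of a vertex.
-/

set_option autoImplicit false

namespace Pool.Agent.Lib.MP_257afc_co.BB

open Finset

variable {W : Type*} [NormedAddCommGroup W] [NormedSpace ℝ W] [FiniteDimensional ℝ W]
variable {ι : Type*} [DecidableEq ι]

/-- Some linear functional is positive on the configuration. -/
def Ptd (I : Finset ι) (a : ι → W) : Prop := ∃ l : W →ₗ[ℝ] ℝ, ∀ i ∈ I, 0 < l (a i)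

/-- No vector is a nonnegative combination of the others. -/
def Irr (I : Finset ι) (a : ι → W) : Prop :=
  ∀ i ∈ I, ∀ c : ι → ℝ, (∀ j, 0 ≤ c j) → a i ≠ ∑ j ∈ I.erase i, c j • a j

/-- The functional is nonnegative on the configuration. -/
def NN (I : Finset ι) (a : ι → W) (f : W →ₗ[ℝ] ℝ) : Prop := ∀ i ∈ I, 0 ≤ f (a i)

/-- Linear independence. -/
def Ind (T : Finset ι) (a : ι → W) : Prop :=
  ∀ c : ι → ℝ, ∑ i ∈ T, c i • a i = 0 → ∀ i ∈ T, c i = 0

/-- Simplex faces. -/
def SF (I : Finset ι) (a : ι → W) (T : Finset ι) : Prop :=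
  T ⊆ I ∧ Ind T a ∧ ∃ h : W →ₗ[ℝ] ℝ, NN I a h ∧ ∀ i ∈ I, h (a i) = 0 ↔ i ∈ T

/-- The zero set of a functional. -/
noncomputable def Z (I : Finset ι) (a : ι → W) (f : W →ₗ[ℝ] ℝ) : Finset ι :=
  I.filter (fun i => f (a i) = 0)

/-- The rank. -/
noncomputable def rk (a : ι → W) (X : Finset ι) : ℕ :=
  Module.finrank ℝ (Submodule.span ℝ (a '' (X : Set ι)))

/-- Facet functionals. -/
def Fct (I : Finset ι) (a : ι → W) (f : W →ₗ[ℝ] ℝ) : Prop :=
  NN I a f ∧ rk a (Z I a f) + 1 = rk a I

omit [FiniteDimensional ℝ W] [DecidableEq ι] in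
theorem mem_Z {I : Finset ι} {a : ι → W} {f : W →ₗ[ℝ] ℝ} {i : ι} :
    i ∈ Z I a f ↔ i ∈ I ∧ f (a i) = 0 := by
  simp [Z]

omit [FiniteDimensional ℝ W] [DecidableEq ι] in
theorem Z_sub {I : Finset ι} {a : ι → W} {f : W →ₗ[ℝ] ℝ} : Z I a f ⊆ I := Finset.filter_subset _ _

omit [FiniteDimensional ℝ W] in
/-- For every vertex there is a functional vanishing exactly there. -/
theorem exists_dir {I : Finset ι} {a : ι → W} (hp : Ptd I a) (hi : Irr I a) {v : ι} (hv : v ∈ I) :
    ∃ φ : W →ₗ[ℝ] ℝ, φ (a v) = 0 ∧ ∀ i ∈ I, i ≠ v → 0 < φ (a i) := by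
  classical
  obtain ⟨l, hl⟩ := hp
  set b : ι → W := fun i => (l (a i))⁻¹ • a i with hb
  have hnot : b v ∉ convexHull ℝ (((I.erase v).image b : Finset W) : Set W) := by
    intro hmem
    have hcv : Convex ℝ {x : W | ∃ c : ι → ℝ, (∀ j, 0 ≤ c j) ∧ x = ∑ j ∈ I.erase v, c j • a j} := by
      rintro x ⟨c, hc, rfl⟩ y ⟨d, hd, rfl⟩ s t hs ht _
      refine ⟨fun j => s * c j + t * d j, fun j => by have := hc j; have := hd j; positivity, ?_⟩
      rw [Finset.smul_sum, Finset.smul_sum, ← Finset.sum_add_distrib]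
      exact Finset.sum_congr rfl fun j _ => by rw [add_smul, mul_smul, mul_smul]
    have hsub := convexHull_min (s := (((I.erase v).image b : Finset W) : Set W)) (by
      intro x hx
      obtain ⟨j, hj, rfl⟩ := Finset.mem_image.1 (by exact_mod_cast hx)
      have hlj := hl j (Finset.mem_of_mem_erase hj)
      refine ⟨fun i => if i = j then (l (a j))⁻¹ else 0, fun i => by
        dsimp only; split_ifs <;> positivity, ?_⟩
      rw [Finset.sum_eq_single_of_mem j hj (fun i _ hij => by simp [hij])]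
      simp [hb]) hcv hmem
    obtain ⟨c, hc, hce⟩ := hsub
    have hlv := hl v hv
    refine hi v hv (fun j => l (a v) * c j) (fun j => mul_nonneg hlv.le (hc j)) ?_
    have h3 : a v = l (a v) • b v := by
      simp only [hb]; rw [smul_smul, mul_inv_cancel₀ hlv.ne', one_smul]
    calc a v = l (a v) • b v := h3
      _ = ∑ j ∈ I.erase v, (l (a v) * c j) • a j := by
        rw [hce, Finset.smul_sum]
        exact Finset.sum_congr rfl fun j _ => by rw [smul_smul]
  obtain ⟨f, hf⟩ := exists_sep hnot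
  have hlv := hl v hv
  refine ⟨(f : W →ₗ[ℝ] ℝ) - f (b v) • l, ?_, ?_⟩
  · have h1 : f (b v) = (l (a v))⁻¹ * f (a v) := by simp [hb]
    simp only [LinearMap.sub_apply, LinearMap.smul_apply, smul_eq_mul, ContinuousLinearMap.coe_coe]
    rw [h1]; field_simp; ring
  · intro i hi' hiv
    have h1 : f (b v) < f (b i) :=
      hf _ (Finset.mem_image_of_mem b (Finset.mem_erase.2 ⟨hiv, hi'⟩))
    have h2 : f (b i) = (l (a i))⁻¹ * f (a i) := by simp [hb]
    have hli := hl i hi'
    simp only [LinearMap.sub_apply, LinearMap.smul_apply, smul_eq_mul, ContinuousLinearMap.coe_coe]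
    rw [h2] at h1
    have h3 : f (b v) * l (a i) < (l (a i))⁻¹ * f (a i) * l (a i) := mul_lt_mul_of_pos_right h1 hli
    have h4 : (l (a i))⁻¹ * f (a i) * l (a i) = f (a i) := by field_simp
    linarith

/-- The data of a contraction of the vertex `v`. -/
structure Ctr (I : Finset ι) (a : ι → W) (v : ι) where
  /-- neighbours -/
  N : Finset ι
  /-- projection along `a v` -/
  p : W →ₗ[ℝ] W
  /-- the functional defining the projection -/
  ps : W →ₗ[ℝ] ℝ
  hN : N ⊆ I.erase v
  hps : ps (a v) = 1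
  hp : ∀ x, p x = x - ps x • a v
  gen : ∀ u ∈ I, ∃ (t : ℝ) (c : ι → ℝ), (∀ j, 0 ≤ c j) ∧
    a u = t • a v + ∑ w ∈ N, c w • a w
  ptd : Ptd N (fun w => p (a w))
  irr : Irr N (fun w => p (a w))

omit [FiniteDimensional ℝ W] in
theorem exists_ctr {I : Finset ι} {a : ι → W} (hp : Ptd I a) (hi : Irr I a) {v : ι} (hv : v ∈ I) :
    Nonempty (Ctr I a v) := by
  classical
  obtain ⟨φ, hφv, hφ⟩ := exists_dir hp hi hv
  obtain ⟨l, hl⟩ := hp
  have hlv := hl v hv
  -- generating subsets
  let G : Finset ι → Prop := fun N => ∀ u ∈ I, ∃ (t : ℝ) (c : ι → ℝ), (∀ j, 0 ≤ c j) ∧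
    a u = t • a v + ∑ w ∈ N, c w • a w
  have hG0 : G (I.erase v) := by
    intro u hu
    by_cases huv : u = v
    · exact ⟨1, fun _ => 0, fun _ => le_rfl, by simp [huv]⟩
    · refine ⟨0, fun j => if j = u then 1 else 0, fun j => by dsimp only; split_ifs <;> simp, ?_⟩
      rw [zero_smul, zero_add, Finset.sum_eq_single_of_mem u (Finset.mem_erase.2 ⟨huv, hu⟩)
        (fun i _ hij => by simp [hij])]
      simp
  obtain ⟨N, hNm, hNmin⟩ := Finset.exists_min_image ((I.erase v).powerset.filter G)
    (fun N => N.card) ⟨I.erase v, by simp [hG0]⟩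
  rw [Finset.mem_filter, Finset.mem_powerset] at hNm
  obtain ⟨hNsub, hNG⟩ := hNm
  have hmin : ∀ i ∈ N, ¬ G (N.erase i) := by
    intro i hi' hG
    have := hNmin (N.erase i) (by
      rw [Finset.mem_filter, Finset.mem_powerset]
      exact ⟨(Finset.erase_subset _ _).trans hNsub, hG⟩)
    rw [Finset.card_erase_of_mem hi'] at this
    have hpos : 0 < N.card := Finset.card_pos.2 ⟨i, hi'⟩
    omega
  set ps : W →ₗ[ℝ] ℝ := (l (a v))⁻¹ • l with hps
  have hpsv : ps (a v) = 1 := by simp [hps, hlv.ne']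
  set p : W →ₗ[ℝ] W := LinearMap.id - ps.smulRight (a v) with hpdef
  have hpx : ∀ x, p x = x - ps x • a v := by intro x; simp [hpdef]
  refine ⟨⟨N, p, ps, hNsub, hpsv, hpx, ?_, ?_, ?_⟩⟩
  · intro u hu
    obtain ⟨t, c, hc, he⟩ := hNG u hu
    exact ⟨t, c, hc, he⟩
  · refine ⟨φ, fun w hw => ?_⟩
    have h1 := Finset.mem_erase.1 (hNsub hw)
    show 0 < φ (p (a w))
    rw [hpx, map_sub, map_smul, hφv, smul_zero, sub_zero]
    exact hφ w h1.2 h1.1
  · intro i hiN c hc he
    refine hmin i hiN ?_
    -- a i is t a v + combination of the others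
    have hai : a i = (ps (a i) - ps (∑ j ∈ N.erase i, c j • a j)) • a v
        + ∑ j ∈ N.erase i, c j • a j := by
      have h1 : p (a i) = p (∑ j ∈ N.erase i, c j • a j) := by
        rw [map_sum]; simpa only [map_smul] using he
      rw [hpx, hpx] at h1
      have := congrArg (fun x => x + ps (a i) • a v) h1
      simp only [sub_add_cancel] at this
      calc a i = ∑ j ∈ N.erase i, c j • a j - ps (∑ j ∈ N.erase i, c j • a j) • a v
            + ps (a i) • a v := this
        _ = _ := by rw [sub_smul]; abel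
    intro u hu
    obtain ⟨t, d, hd, hu'⟩ := hNG u hu
    refine ⟨t + d i * (ps (a i) - ps (∑ j ∈ N.erase i, c j • a j)),
      fun j => d i * c j + d j, fun j => by have := hc j; have := hd j; have := hd i; positivity, ?_⟩
    rw [hu', ← Finset.add_sum_erase N (fun w => d w • a w) hiN]
    conv_lhs => rw [hai]
    simp only [smul_add, add_smul, mul_smul, Finset.sum_add_distrib, Finset.smul_sum]
    abel

section Contraction

variable {I : Finset ι} {a : ι → W} {v : ι} (C : Ctr I a v)

omit [FiniteDimensional ℝ W] in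
include C in
theorem Ctr.p_v : C.p (a v) = 0 := by rw [C.hp, C.hps, one_smul, sub_self]

omit [FiniteDimensional ℝ W] in
theorem Ctr.f_p {f : W →ₗ[ℝ] ℝ} (hf : f (a v) = 0) (x : W) : f (C.p x) = f x := by
  rw [C.hp, map_sub, map_smul, hf, smul_zero, sub_zero]

omit [FiniteDimensional ℝ W] in
theorem Ctr.notMem : v ∉ C.N := fun h => (Finset.mem_erase.1 (C.hN h)).1 rfl

omit [FiniteDimensional ℝ W] in
theorem Ctr.mem {w : ι} (hw : w ∈ C.N) : w ∈ I := (Finset.mem_erase.1 (C.hN hw)).2

omit [FiniteDimensional ℝ W] in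
theorem Ctr.ne {w : ι} (hw : w ∈ C.N) : w ≠ v := (Finset.mem_erase.1 (C.hN hw)).1

omit [FiniteDimensional ℝ W] in
/-- A functional vanishing at `v` on a generated vector. -/
theorem Ctr.val {f : W →ₗ[ℝ] ℝ} (hf : f (a v) = 0) {t : ℝ} {c : ι → ℝ} {x : W}
    (hx : x = t • a v + ∑ w ∈ C.N, c w • a w) : f x = ∑ w ∈ C.N, c w * f (a w) := by
  rw [hx, map_add, map_smul, hf, smul_zero, zero_add, map_sum]
  exact Finset.sum_congr rfl fun w _ => by rw [map_smul, smul_eq_mul]

omit [FiniteDimensional ℝ W] in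
/-- A functional vanishing at `v` and nonnegative on the neighbours is nonnegative. -/
theorem Ctr.nn {f : W →ₗ[ℝ] ℝ} (hf : f (a v) = 0) (hN : ∀ w ∈ C.N, 0 ≤ f (a w)) : NN I a f := by
  intro u hu
  obtain ⟨t, c, hc, he⟩ := C.gen u hu
  rw [C.val hf he]
  exact Finset.sum_nonneg fun w hw => mul_nonneg (hc w) (hN w hw)

omit [FiniteDimensional ℝ W] [DecidableEq ι] in
/-- Interpolation on an independent set. -/
theorem exists_interp {T : Finset ι} {b : ι → W} (hT : Ind T b) (g : ι → ℝ) :
    ∃ e : W →ₗ[ℝ] ℝ, ∀ i ∈ T, e (b i) = g i := by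
  classical
  have hli : LinearIndependent ℝ (fun i : T => b i) := by
    rw [Fintype.linearIndependent_iff]
    intro c hc i
    have := hT (fun j => if h : j ∈ T then c ⟨j, h⟩ else 0) (by
      rw [← Finset.sum_attach]
      rw [← hc]
      refine Finset.sum_congr rfl fun j _ => ?_
      simp) i.1 i.2
    simpa using this
  obtain ⟨e, he⟩ := ((Module.Basis.span hli).constr ℝ (fun i : T => g i)).exists_extend
  refine ⟨e, fun i hi => ?_⟩
  have h1 := congrArg (fun F => F (Module.Basis.span hli ⟨i, hi⟩)) he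
  simp only [LinearMap.comp_apply, Submodule.subtype_apply] at h1
  rw [Module.Basis.constr_basis] at h1
  rw [Module.Basis.span_apply] at h1
  exact h1

omit [FiniteDimensional ℝ W] in
/-- The cone argument: a simplex face of the contraction, cut by a functional positive at `v`,
gives a simplex face. -/
theorem Ctr.lift (hpt : Ptd I a) (hir : Irr I a) (hv : v ∈ I) {T : Finset ι}
    (hT : SF C.N (fun w => C.p (a w)) T)
    {g : W →ₗ[ℝ] ℝ} (hg : NN I a g) (hgv : 0 < g (a v)) :
    SF I a (insert v (T.filter (fun w => g (a w) = 0))) := by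
  classical
  obtain ⟨hTN, hTi, h', hh', hz'⟩ := hT
  set J := T.filter (fun w => g (a w) = 0) with hJ
  have hJT : J ⊆ T := Finset.filter_subset _ _
  obtain ⟨e, he⟩ := exists_interp hTi (fun w => if g (a w) = 0 then 0 else 1)
  have hpos : ∀ w ∈ C.N, w ∉ T → 0 < h' (C.p (a w)) := fun w hw hwT =>
    lt_of_le_of_ne (hh' w hw) (fun h => hwT ((hz' w hw).1 h.symm))
  -- a large constant
  obtain ⟨M, hM0, hM⟩ : ∃ M : ℝ, 0 ≤ M ∧ ∀ w ∈ C.N, w ∉ T →
      0 < M * h' (C.p (a w)) + e (C.p (a w)) := by
    refine ⟨∑ w ∈ C.N, (if w ∈ T then 0 else (|e (C.p (a w))| + 1) / h' (C.p (a w))), ?_, ?_⟩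
    · refine Finset.sum_nonneg fun w hw => ?_
      split_ifs with h
      · exact le_rfl
      · have := hpos w hw h
        positivity
    · intro w hw hwT
      have h1 := hpos w hw hwT
      have h2 : (|e (C.p (a w))| + 1) / h' (C.p (a w)) ≤
          ∑ w ∈ C.N, (if w ∈ T then 0 else (|e (C.p (a w))| + 1) / h' (C.p (a w))) := by
        refine le_trans (le_of_eq ?_) (Finset.single_le_sum (f := fun w =>
          (if w ∈ T then 0 else (|e (C.p (a w))| + 1) / h' (C.p (a w)))) (fun w hw => ?_) hw)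
        · simp [hwT]
        · split_ifs with h
          · exact le_rfl
          · have := hpos w hw h
            positivity
      have h3 : |e (C.p (a w))| + 1 ≤ (∑ w ∈ C.N, (if w ∈ T then 0 else
          (|e (C.p (a w))| + 1) / h' (C.p (a w)))) * h' (C.p (a w)) := by
        rwa [← div_le_iff₀ h1]
      have h4 := neg_abs_le (e (C.p (a w)))
      linarith
  set H : W →ₗ[ℝ] ℝ := (M • h' + e) ∘ₗ C.p with hH
  have hHx : ∀ x, H x = M * h' (C.p x) + e (C.p x) := fun x => by simp [hH]
  have hHv : H (a v) = 0 := by rw [hHx, C.p_v]; simp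
  have hHT : ∀ w ∈ T, H (a w) = if g (a w) = 0 then 0 else 1 := by
    intro w hw
    rw [hHx, (hz' w (hTN hw)).2 hw, mul_zero, zero_add]
    exact he w hw
  have hHN : ∀ w ∈ C.N, 0 ≤ H (a w) := by
    intro w hw
    by_cases hwT : w ∈ T
    · rw [hHT w hwT]; split_ifs <;> norm_num
    · rw [hHx]; exact (hM w hw hwT).le
  have hHN' : ∀ w ∈ C.N, H (a w) = 0 → w ∈ J := by
    intro w hw h0
    by_cases hwT : w ∈ T
    · rw [hHT w hwT] at h0
      refine Finset.mem_filter.2 ⟨hwT, ?_⟩
      by_contra hne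
      rw [if_neg hne] at h0
      norm_num at h0
    · exfalso
      have := hM w hw hwT
      rw [← hHx, h0] at this
      exact lt_irrefl _ this
  have hJ0 : ∀ w ∈ J, H (a w) = 0 := by
    intro w hw
    rw [hHT w (hJT hw), if_pos (Finset.mem_filter.1 hw).2]
  have hHnn : NN I a H := C.nn hHv hHN
  refine ⟨?_, ?_, H, hHnn, ?_⟩
  · intro w hw
    rcases Finset.mem_insert.1 hw with rfl | hw
    · exact hv
    · exact C.mem (hTN (hJT hw))
  · -- independence
    obtain ⟨l, hl⟩ := hpt
    have hav : a v ≠ 0 := by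
      intro h
      have := hl v hv
      rw [h, map_zero] at this
      exact lt_irrefl _ this
    have hvJ : v ∉ J := fun h => C.notMem (hTN (hJT h))
    intro c hc
    rw [Finset.sum_insert hvJ] at hc
    have hcJ : ∀ w ∈ J, c w = 0 := by
      have h1 := congrArg C.p hc
      rw [map_add, map_smul, C.p_v, smul_zero, zero_add, map_sum, map_zero] at h1
      have h2 := hTi (fun w => if w ∈ J then c w else 0) (by
        rw [← h1, ← Finset.sum_subset hJT]
        · exact Finset.sum_congr rfl fun w hw => by rw [if_pos hw, map_smul]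
        · intro w _ hwJ; rw [if_neg hwJ, zero_smul])
      intro w hw
      have := h2 w (hJT hw)
      rwa [if_pos hw] at this
    intro w hw
    rcases Finset.mem_insert.1 hw with rfl | hw
    · rw [Finset.sum_eq_zero (fun w hw => by rw [hcJ w hw, zero_smul]), add_zero] at hc
      exact (smul_eq_zero.1 hc).resolve_right hav
    · exact hcJ w hw
  · intro u hu
    constructor
    · intro h0
      by_cases huv : u = v
      · rw [huv]; exact Finset.mem_insert_self _ _
      obtain ⟨t, c, hc, hue⟩ := C.gen u hu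
      have h1 := C.val hHv hue
      rw [h0] at h1
      have h2 := (Finset.sum_eq_zero_iff_of_nonneg
        (fun w hw => mul_nonneg (hc w) (hHN w hw))).1 h1.symm
      have h3 : ∀ w ∈ C.N, w ∉ J → c w = 0 := by
        intro w hw hwJ
        rcases mul_eq_zero.1 (h2 w hw) with h | h
        · exact h
        · exact absurd (hHN' w hw h) hwJ
      have h4 : ∑ w ∈ C.N, c w • a w = ∑ w ∈ J, c w • a w :=
        (Finset.sum_subset (hJT.trans hTN) fun w hw hwJ => by rw [h3 w hw hwJ, zero_smul]).symm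
      rw [h4] at hue
      have ht : 0 ≤ t := by
        have h5 := congrArg g hue
        rw [map_add, map_smul, map_sum, Finset.sum_eq_zero (fun w hw => by
          rw [map_smul, (Finset.mem_filter.1 hw).2, smul_zero]), add_zero, smul_eq_mul] at h5
        have h6 := hg u hu
        rw [h5] at h6
        exact nonneg_of_mul_nonneg_left h6 hgv
      by_contra hnot
      have huJ : u ∉ J := fun h => hnot (Finset.mem_insert_of_mem h)
      refine hir u hu (fun w => if w = v then t else if w ∈ J then c w else 0)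
        (fun w => by split_ifs <;> first | exact ht | exact hc w | exact le_rfl) ?_
      rw [← Finset.sum_subset (s₁ := insert v J)]
      · have hvJ : v ∉ J := fun h => C.notMem (hTN (hJT h))
        rw [Finset.sum_insert hvJ, if_pos rfl, hue]
        congr 1
        refine Finset.sum_congr rfl fun w hw => ?_
        have hwv : w ≠ v := fun h => hvJ (h ▸ hw)
        rw [if_neg hwv, if_pos hw]
      · intro w hw
        rcases Finset.mem_insert.1 hw with rfl | hw
        · exact Finset.mem_erase.2 ⟨fun h => huv h.symm, hv⟩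
        · exact Finset.mem_erase.2 ⟨fun h => huJ (h ▸ hw), C.mem (hTN (hJT hw))⟩
      · intro w _ hw
        rw [Finset.mem_insert, not_or] at hw
        rw [if_neg hw.1, if_neg hw.2, zero_smul]
    · intro h
      rcases Finset.mem_insert.1 h with rfl | h
      · exact hHv
      · exact hJ0 u h

end Contraction

end Pool.Agent.Lib.MP_257afc_co.BB
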