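import Mathlib
import Pool.Agent.Lib.MP_257afc_co.BB.Conf

/-!
Rank, facets, and the theorem on facets with empty intersection.
-/

set_option autoImplicit false

namespace Pool.Agent.Lib.MP_257afc_co.BB

open Finset

variable {W : Type*} [NormedAddCommGroup W] [NormedSpace ℝ W] [FiniteDimensional ℝ W]
variable {ι : Type*} [DecidableEq ι]

omit [DecidableEq ι] in
theorem rk_mono {a : ι → W} {X Y : Finset ι} (h : X ⊆ Y) : rk a X ≤ rk a Y :=
  Submodule.finrank_mono (Submodule.span_mono (Set.image_mono (by exact_mod_cast h)))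

section Contraction

variable {I : Finset ι} {a : ι → W} {v : ι} (C : Ctr I a v)

include C in
theorem Ctr.rk_eq (hpt : Ptd I a) (hv : v ∈ I) {X Y : Finset ι} (hvX : v ∈ X) (hYX : Y ⊆ X)
    (hX : ∀ u ∈ X, ∃ (t : ℝ) (c : ι → ℝ), a u = t • a v + ∑ w ∈ Y, c w • a w) :
    rk a X = rk (fun w => C.p (a w)) Y + 1 := by
  have hav : a v ≠ 0 := by
    obtain ⟨l, hl⟩ := hpt
    intro h
    have := hl v hv
    rw [h, map_zero] at this
    exact lt_irrefl _ this
  have hsup : Submodule.span ℝ (a '' (X : Set ι)) =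
      Submodule.span ℝ {a v} ⊔ Submodule.span ℝ ((fun w => C.p (a w)) '' (Y : Set ι)) := by
    apply le_antisymm
    · rw [Submodule.span_le]
      rintro _ ⟨u, hu, rfl⟩
      obtain ⟨t, c, he⟩ := hX u (by exact_mod_cast hu)
      have hmv : a v ∈ Submodule.span ℝ {a v} ⊔
          Submodule.span ℝ ((fun w => C.p (a w)) '' (Y : Set ι)) :=
        Submodule.mem_sup_left (Submodule.mem_span_singleton_self _)
      rw [SetLike.mem_coe, he]
      refine add_mem (Submodule.smul_mem _ _ hmv) (Submodule.sum_mem _ fun w hw => ?_)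
      have h1 : a w = C.p (a w) + C.ps (a w) • a v := by rw [C.hp]; abel
      rw [h1]
      refine Submodule.smul_mem _ _ (add_mem (Submodule.mem_sup_right (Submodule.subset_span
        ⟨w, by exact_mod_cast hw, rfl⟩)) (Submodule.smul_mem _ _ hmv))
    · rw [sup_le_iff, Submodule.span_le, Submodule.span_le]
      have hmv : a v ∈ Submodule.span ℝ (a '' (X : Set ι)) :=
        Submodule.subset_span ⟨v, by exact_mod_cast hvX, rfl⟩
      constructor
      · rintro _ rfl; exact hmv
      · rintro _ ⟨w, hw, rfl⟩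
        show C.p (a w) ∈ _
        rw [C.hp]
        exact sub_mem (Submodule.subset_span ⟨w, hYX hw, rfl⟩) (Submodule.smul_mem _ _ hmv)
  have hinf : Submodule.span ℝ {a v} ⊓ Submodule.span ℝ ((fun w => C.p (a w)) '' (Y : Set ι))
      = ⊥ := by
    rw [Submodule.eq_bot_iff]
    rintro x ⟨hx1, hx2⟩
    obtain ⟨s, rfl⟩ := Submodule.mem_span_singleton.1 hx1
    have h0 : ∀ y ∈ Submodule.span ℝ ((fun w => C.p (a w)) '' (Y : Set ι)), C.ps y = 0 := by
      intro y hy
      have hle : Submodule.span ℝ ((fun w => C.p (a w)) '' (Y : Set ι)) ≤ LinearMap.ker C.ps := by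
        rw [Submodule.span_le]
        rintro _ ⟨w, _, rfl⟩
        show C.ps (C.p (a w)) = 0
        rw [C.hp, map_sub, map_smul, C.hps, smul_eq_mul, mul_one, sub_self]
      exact hle hy
    have h1 := h0 _ hx2
    rw [map_smul, C.hps, smul_eq_mul, mul_one] at h1
    rw [h1, zero_smul]
  have hf := Submodule.finrank_sup_add_finrank_inf_eq (Submodule.span ℝ {a v})
    (Submodule.span ℝ ((fun w => C.p (a w)) '' (Y : Set ι)))
  rw [hinf, finrank_bot, add_zero, finrank_span_singleton hav] at hf
  unfold rk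
  rw [hsup, hf, add_comm]

theorem Ctr.rk_I (hpt : Ptd I a) (hv : v ∈ I) : rk a I = rk (fun w => C.p (a w)) C.N + 1 := by
  refine C.rk_eq hpt hv hv (fun w hw => C.mem hw) fun u hu => ?_
  obtain ⟨t, c, _, he⟩ := C.gen u hu
  exact ⟨t, c, he⟩

/-- Facets of the contraction give facets. -/
theorem Ctr.fct (hpt : Ptd I a) (hv : v ∈ I) {f : W →ₗ[ℝ] ℝ}
    (hf : Fct C.N (fun w => C.p (a w)) f) : Fct I a (f ∘ₗ C.p) := by
  have hfv : (f ∘ₗ C.p) (a v) = 0 := by rw [LinearMap.comp_apply, C.p_v, map_zero]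
  refine ⟨C.nn hfv fun w hw => hf.1 w hw, ?_⟩
  rw [C.rk_I hpt hv, ← hf.2]
  congr 1
  refine C.rk_eq hpt hv (mem_Z.2 ⟨hv, hfv⟩) (fun w hw => ?_) fun u hu => ?_
  · rw [mem_Z] at hw
    exact mem_Z.2 ⟨C.mem hw.1, hw.2⟩
  · rw [mem_Z] at hu
    obtain ⟨t, c, hc, he⟩ := C.gen u hu.1
    refine ⟨t, c, ?_⟩
    have h1 := C.val hfv he
    rw [hu.2] at h1
    have h2 := (Finset.sum_eq_zero_iff_of_nonneg
      (fun w hw => mul_nonneg (hc w) (hf.1 w hw))).1 h1.symm
    rw [he]
    congr 1
    symm
    refine Finset.sum_subset Z_sub fun w hw hwZ => ?_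
    rcases mul_eq_zero.1 (h2 w hw) with h | h
    · rw [h, zero_smul]
    · exact absurd (mem_Z.2 ⟨hw, h⟩) hwZ

end Contraction

/-- Every nonnegative functional can be moved to a facet functional, keeping its zeros and its
positivity at a given point. -/
theorem exists_facet {I : Finset ι} {a : ι → W} : ∀ (n : ℕ) (f : W →ₗ[ℝ] ℝ), NN I a f →
    (I \ Z I a f).card = n → ∀ u ∈ I, 0 < f (a u) →
    ∃ g, Fct I a g ∧ 0 < g (a u) ∧ Z I a f ⊆ Z I a g := by
  classical
  intro n
  induction n using Nat.strong_induction_on with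
  | _ n ih =>
  intro f hf hn u hu hfu
  by_cases hrk : rk a (Z I a f) + 1 = rk a I
  · exact ⟨f, ⟨hf, hrk⟩, hfu, fun _ h => h⟩
  -- the rank of the zero set plus the point is smaller than the rank
  have hker : Submodule.span ℝ (a '' ((Z I a f : Finset ι) : Set ι)) ≤ LinearMap.ker f := by
    rw [Submodule.span_le]
    rintro _ ⟨i, hi, rfl⟩
    exact (mem_Z.1 (by exact_mod_cast hi)).2
  have hlt : rk a (Z I a f) < rk a I := by
    refine Submodule.finrank_lt_finrank_of_lt (lt_of_le_of_ne (Submodule.span_mono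
      (Set.image_mono (by exact_mod_cast Z_sub))) fun he => ?_)
    have h1 : a u ∈ Submodule.span ℝ (a '' (I : Set ι)) := Submodule.subset_span ⟨u, hu, rfl⟩
    rw [← he] at h1
    exact hfu.ne' (hker h1)
  have hins : rk a (insert u (Z I a f)) ≤ rk a (Z I a f) + 1 := by
    unfold rk
    rw [Finset.coe_insert, Set.image_insert_eq, Submodule.span_insert]
    refine (Submodule.finrank_add_le_finrank_add_finrank _ _).trans ?_
    have h0 : a u ≠ 0 := by
      intro h
      rw [h, map_zero] at hfu
      exact lt_irrefl _ hfu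
    rw [finrank_span_singleton h0, add_comm]
  have hex : ∃ i ∈ I, a i ∉ Submodule.span ℝ (a '' ((insert u (Z I a f) : Finset ι) : Set ι)) := by
    by_contra hno
    push Not at hno
    have h1 : rk a I ≤ rk a (insert u (Z I a f)) := by
      refine Submodule.finrank_mono ?_
      rw [Submodule.span_le]
      rintro _ ⟨i, hi, rfl⟩
      exact hno i (by exact_mod_cast hi)
    omega
  obtain ⟨i, hi, hni⟩ := hex
  obtain ⟨g0, hg0, hg0s⟩ := Submodule.exists_dual_map_eq_bot_of_notMem hni inferInstance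
  have hg0z : ∀ j ∈ insert u (Z I a f), g0 (a j) = 0 := by
    intro j hj
    have h1 : g0 (a j) ∈ Submodule.map g0
        (Submodule.span ℝ (a '' ((insert u (Z I a f) : Finset ι) : Set ι))) :=
      Submodule.mem_map_of_mem (Submodule.subset_span ⟨j, by exact_mod_cast hj, rfl⟩)
    rw [hg0s] at h1
    exact (Submodule.mem_bot ℝ).1 h1
  -- a functional negative somewhere
  obtain ⟨g, hgz, hgi⟩ : ∃ g : W →ₗ[ℝ] ℝ, (∀ j ∈ insert u (Z I a f), g (a j) = 0) ∧ g (a i) < 0 := by
    rcases lt_or_gt_of_ne hg0 with h | h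
    · exact ⟨g0, hg0z, h⟩
    · exact ⟨-g0, fun j hj => by rw [LinearMap.neg_apply, hg0z j hj, neg_zero],
        by rw [LinearMap.neg_apply]; linarith⟩
  obtain ⟨j, hjm, hjmin⟩ := Finset.exists_min_image (I.filter (fun j => g (a j) < 0))
    (fun j => f (a j) / (-g (a j))) ⟨i, Finset.mem_filter.2 ⟨hi, hgi⟩⟩
  rw [Finset.mem_filter] at hjm
  set t : ℝ := f (a j) / (-g (a j)) with ht
  have ht0 : 0 ≤ t := div_nonneg (hf j hjm.1) (by linarith [hjm.2])
  have hf' : NN I a (f + t • g) := by
    intro w hw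
    rw [LinearMap.add_apply, LinearMap.smul_apply, smul_eq_mul]
    by_cases hgw : g (a w) < 0
    · have h1 := hjmin w (Finset.mem_filter.2 ⟨hw, hgw⟩)
      rw [le_div_iff₀ (by linarith : 0 < -g (a w))] at h1
      linarith
    · have h1 := hf w hw
      have h2 := mul_nonneg ht0 (not_lt.1 hgw)
      linarith
  have hsub : Z I a f ⊆ Z I a (f + t • g) := by
    intro w hw
    have hw' := mem_Z.1 hw
    refine mem_Z.2 ⟨hw'.1, ?_⟩
    rw [LinearMap.add_apply, LinearMap.smul_apply, hw'.2, hgz w (Finset.mem_insert_of_mem hw)]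
    simp
  have hjZ : j ∈ Z I a (f + t • g) := by
    refine mem_Z.2 ⟨hjm.1, ?_⟩
    have h0 : -g (a j) ≠ 0 := by linarith [hjm.2]
    have h1 : t * (-g (a j)) = f (a j) := by rw [ht]; exact div_mul_cancel₀ _ h0
    rw [LinearMap.add_apply, LinearMap.smul_apply, smul_eq_mul]
    linarith
  have hjnZ : j ∉ Z I a f := by
    intro h
    have := hgz j (Finset.mem_insert_of_mem h)
    linarith [hjm.2]
  have hcard : (I \ Z I a (f + t • g)).card < n := by
    rw [← hn]
    refine Finset.card_lt_card ⟨Finset.sdiff_subset_sdiff (Finset.Subset.refl _) hsub, fun h => ?_⟩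
    have := h (Finset.mem_sdiff.2 ⟨hjm.1, hjnZ⟩)
    exact (Finset.mem_sdiff.1 this).2 hjZ
  have hfu' : 0 < (f + t • g) (a u) := by
    rw [LinearMap.add_apply, LinearMap.smul_apply, hgz u (Finset.mem_insert_self _ _)]
    simpa using hfu
  obtain ⟨g', h1, h2, h3⟩ := ih _ hcard (f + t • g) hf' rfl u hu hfu'
  exact ⟨g', h1, h2, hsub.trans h3⟩

omit [FiniteDimensional ℝ W] in
theorem SF_single {I : Finset ι} {a : ι → W} (hp : Ptd I a) (hi : Irr I a) {v : ι} (hv : v ∈ I) :
    SF I a {v} := by
  obtain ⟨φ, hφv, hφ⟩ := exists_dir hp hi hv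
  refine ⟨Finset.singleton_subset_iff.2 hv, ?_, φ, ?_, ?_⟩
  · obtain ⟨l, hl⟩ := hp
    have hav : a v ≠ 0 := by
      intro h
      have := hl v hv
      rw [h, map_zero] at this
      exact lt_irrefl _ this
    intro c hc i hi'
    rw [Finset.mem_singleton] at hi'
    subst hi'
    rw [Finset.sum_singleton] at hc
    exact (smul_eq_zero.1 hc).resolve_right hav
  · intro i hi'
    by_cases h : i = v
    · rw [h, hφv]
    · exact (hφ i hi' h).le
  · intro i hi'
    rw [Finset.mem_singleton]
    constructor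
    · intro h
      by_contra hne
      exact (hφ i hi' hne).ne' h
    · rintro rfl; exact hφv

/-- **Relative form of the theorem on facets with empty intersection.** If all simplex faces with
all vertices in the positive side of `h` have at most `k` vertices, then at most `k` facets
already have no common vertex on the positive side. -/
theorem exists_facets : ∀ (k : ℕ) (I : Finset ι) (a : ι → W) (h : W →ₗ[ℝ] ℝ), Ptd I a → Irr I a →
    (∀ T, SF I a T → (∀ i ∈ T, 0 < h (a i)) → T.card ≤ k) →
    ∃ s : Finset (W →ₗ[ℝ] ℝ), s.card ≤ k ∧ (∀ f ∈ s, Fct I a f) ∧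
      ∀ i ∈ I, 0 < h (a i) → ∃ f ∈ s, 0 < f (a i) := by
  classical
  intro k
  induction k with
  | zero =>
    intro I a h hp hi hk
    refine ⟨∅, le_rfl, by simp, fun i hi' hpos => ?_⟩
    exfalso
    have := hk {i} (SF_single hp hi hi') (by
      intro j hj; rw [Finset.mem_singleton] at hj; rw [hj]; exact hpos)
    simp at this
  | succ k ih =>
    intro I a h hp hi hk
    by_cases hU : ∃ u ∈ I, 0 < h (a u)
    · obtain ⟨u, hu, hhu⟩ := hU
      obtain ⟨l, hl⟩ := id hp
      obtain ⟨f, hf, hfu, -⟩ := exists_facet _ l (fun i hi => (hl i hi).le) rfl u hu (hl u hu)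
      -- the vertex maximising `h / f`
      obtain ⟨v, hvm, hvmax⟩ := Finset.exists_max_image
        (I.filter (fun i => 0 < h (a i) ∧ 0 < f (a i))) (fun i => h (a i) / f (a i))
        ⟨u, Finset.mem_filter.2 ⟨hu, hhu, hfu⟩⟩
      rw [Finset.mem_filter] at hvm
      obtain ⟨hv, hhv, hfv⟩ := hvm
      set c : ℝ := h (a v) / f (a v) with hc
      have hc0 : 0 < c := div_pos hhv hfv
      set φ : W →ₗ[ℝ] ℝ := h - c • f with hφ
      have hφx : ∀ x, φ x = h x - c * f x := fun x => by simp [hφ]
      have hφv : φ (a v) = 0 := by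
        rw [hφx, hc, div_mul_cancel₀ _ hfv.ne', sub_self]
      have hφpos : ∀ i ∈ I, 0 < φ (a i) → 0 < h (a i) ∧ f (a i) = 0 := by
        intro i hi' hpos
        rw [hφx] at hpos
        have hfi := hf.1 i hi'
        rcases hfi.lt_or_eq with hlt | heq
        · exfalso
          by_cases hhi : 0 < h (a i)
          · have h1 := hvmax i (Finset.mem_filter.2 ⟨hi', hhi, hlt⟩)
            rw [div_le_iff₀ hlt] at h1
            linarith
          · have h2 := mul_pos hc0 hlt
            linarith
        · rw [← heq, mul_zero, sub_zero] at hpos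
          exact ⟨hpos, heq.symm⟩
      obtain ⟨C⟩ := exists_ctr hp hi hv
      obtain ⟨s, hs1, hs2, hs3⟩ := ih C.N (fun w => C.p (a w)) φ C.ptd C.irr (by
        intro T hT hTpos
        have hTp : ∀ w ∈ T, 0 < h (a w) ∧ f (a w) = 0 := fun w hw => by
          have h1 : 0 < φ (C.p (a w)) := hTpos w hw
          rw [C.f_p hφv] at h1
          exact hφpos w (C.mem (hT.1 hw)) h1
        have h1 := C.lift hp hi hv hT hf.1 hfv
        rw [Finset.filter_true_of_mem (fun w hw => (hTp w hw).2)] at h1
        have h2 := hk _ h1 (by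
          intro w hw
          rcases Finset.mem_insert.1 hw with rfl | hw
          · exact hhv
          · exact (hTp w hw).1)
        rw [Finset.card_insert_of_notMem (fun h => C.notMem (hT.1 h))] at h2
        omega)
      refine ⟨insert f (s.image (fun g => g ∘ₗ C.p)), ?_, ?_, ?_⟩
      · refine (Finset.card_insert_le _ _).trans ?_
        have := Finset.card_image_le (s := s) (f := fun g : W →ₗ[ℝ] ℝ => g ∘ₗ C.p)
        omega
      · intro g hg
        rcases Finset.mem_insert.1 hg with rfl | hg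
        · exact hf
        · obtain ⟨g', hg', rfl⟩ := Finset.mem_image.1 hg
          exact C.fct hp hv (hs2 g' hg')
      · intro i hi' hhi
        rcases (hf.1 i hi').lt_or_eq with hlt | heq
        · exact ⟨f, Finset.mem_insert_self _ _, hlt⟩
        have hφi : 0 < φ (a i) := by rw [hφx, ← heq, mul_zero, sub_zero]; exact hhi
        obtain ⟨t, d, hd, he⟩ := C.gen i hi'
        by_contra hno
        push Not at hno
        have hval := C.val hφv he
        refine absurd hφi (not_lt.2 ?_)
        rw [hval]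
        refine Finset.sum_nonpos fun w hw => ?_
        rcases (hd w).lt_or_eq with hdw | hdw
        · refine mul_nonpos_of_nonneg_of_nonpos (hd w) ?_
          by_contra hpos
          rw [not_le] at hpos
          obtain ⟨g, hg, hgw⟩ := hs3 w hw (by
            show 0 < φ (C.p (a w)); rw [C.f_p hφv]; exact hpos)
          have hgv : (g ∘ₗ C.p) (a v) = 0 := by rw [LinearMap.comp_apply, C.p_v, map_zero]
          have h1 := hno (g ∘ₗ C.p) (Finset.mem_insert_of_mem (Finset.mem_image_of_mem _ hg))
          rw [C.val hgv he] at h1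
          have h2 : 0 < ∑ w ∈ C.N, d w * (g ∘ₗ C.p) (a w) := by
            refine lt_of_lt_of_le (mul_pos hdw hgw) (Finset.single_le_sum
              (f := fun w => d w * (g ∘ₗ C.p) (a w)) (fun x hx => mul_nonneg (hd x) ?_) hw)
            exact (hs2 g hg).1 x hx
          linarith
        · rw [← hdw, zero_mul]
    · refine ⟨∅, by simp, by simp, fun i hi' hpos => (hU ⟨i, hi', hpos⟩).elim⟩

end Pool.Agent.Lib.MP_257afc_co.BB
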