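import Mathlib
import Pool.Agent.Lib.MP_257afc_co.BB.Facets

/-!
The fractional simplex theorem.
-/

set_option autoImplicit false

namespace Pool.Agent.Lib.MP_257afc_co.BB

open Finset

variable {W : Type*} [NormedAddCommGroup W] [NormedSpace ℝ W]
variable {ι : Type*} [DecidableEq ι]

/-- The mass of the faces missing the vertex `i`. -/
noncomputable def rho {κ : Type*} (K : Finset κ) (q : κ → ℝ) (f : κ → W →ₗ[ℝ] ℝ) (x : W) : ℝ :=
  ∑ k ∈ K.filter (fun k => 0 < f k x), q k

/-- **Fractional simplex theorem.** -/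
theorem exists_SF_rho {κ : Type*} [DecidableEq κ] (q : κ → ℝ) (hq : ∀ k, 0 ≤ q k) :
    ∀ (n : ℕ) (I : Finset ι) (a : ι → W), I.card = n → Ptd I a → Irr I a →
    ∀ (K : Finset κ) (f : κ → W →ₗ[ℝ] ℝ), (∀ k ∈ K, NN I a (f k)) →
      (∀ k ∈ K, ∃ i ∈ I, 0 < f k (a i)) →
      ∃ T, SF I a T ∧ ∑ k ∈ K, q k ≤ ∑ i ∈ T, rho K q f (a i) := by
  classical
  intro n
  induction n using Nat.strong_induction_on with
  | _ n ih =>
  intro I a hn hp hi K f hf hfp
  obtain ⟨l, hl⟩ := id hp
  by_cases hm : ∑ k ∈ K, q k ≤ 0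
  · refine ⟨∅, ⟨Finset.empty_subset _, fun c _ i hi => by simp at hi, l, fun i hi => (hl i hi).le,
      fun i hi => ?_⟩, by simpa using hm⟩
    have := hl i hi
    simp [this.ne']
  rw [not_le] at hm
  -- some index has positive weight, so the set is nonempty
  obtain ⟨k0, hk0, hqk0⟩ : ∃ k ∈ K, 0 < q k := by
    by_contra hno
    push Not at hno
    exact absurd hm (not_lt.2 (Finset.sum_nonpos hno))
  obtain ⟨i0, hi0, hfi0⟩ := hfp k0 hk0
  obtain ⟨v, hv, hvmax⟩ := Finset.exists_max_image I (fun i => rho K q f (a i)) ⟨i0, hi0⟩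
  set τ : ℝ := rho K q f (a v) with hτ
  have hτ0 : 0 < τ := by
    refine lt_of_lt_of_le ?_ (hvmax i0 hi0)
    unfold rho
    exact lt_of_lt_of_le hqk0 (Finset.single_le_sum (f := fun k => q k) (fun k _ => hq k)
      (Finset.mem_filter.2 ⟨hk0, hfi0⟩))
  set B : Finset κ := K.filter (fun k => 0 < f k (a v)) with hB
  set A : Finset κ := K.filter (fun k => ¬ 0 < f k (a v)) with hA
  have hsum : ∑ k ∈ K, q k = τ + ∑ k ∈ A, q k := by
    rw [hτ, rho]
    exact (Finset.sum_filter_add_sum_filter_not K (fun k => 0 < f k (a v)) q).symm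
  have hAv : ∀ k ∈ A, f k (a v) = 0 := fun k hk => by
    rw [hA, Finset.mem_filter] at hk
    exact le_antisymm (not_lt.1 hk.2) (hf k hk.1 v hv)
  obtain ⟨C⟩ := exists_ctr hp hi hv
  have hcard : C.N.card < n := by
    rw [← hn]
    refine lt_of_le_of_lt (Finset.card_le_card C.hN) ?_
    exact Finset.card_erase_lt_of_mem hv
  obtain ⟨T, hT, hTs⟩ := ih _ hcard C.N (fun w => C.p (a w)) rfl C.ptd C.irr A f
    (fun k hk w hw => by
      show 0 ≤ f k (C.p (a w))
      rw [C.f_p (hAv k hk)]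
      exact hf k (Finset.mem_filter.1 hk).1 w (C.mem hw))
    (fun k hk => by
      obtain ⟨i, hi', hfi⟩ := hfp k (Finset.mem_filter.1 hk).1
      obtain ⟨t, c, hc, he⟩ := C.gen i hi'
      by_contra hno
      push Not at hno
      rw [C.val (hAv k hk) he] at hfi
      refine absurd hfi (not_lt.2 (Finset.sum_nonpos fun w hw => ?_))
      have h1 : f k (C.p (a w)) ≤ 0 := hno w hw
      rw [C.f_p (hAv k hk)] at h1
      exact mul_nonpos_of_nonneg_of_nonpos (hc w) h1)
  have hTN : T ⊆ C.N := hT.1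
  -- masses
  set rQ : ι → ℝ := fun w => rho A q f (a w) with hrQ
  have hTs' : ∑ k ∈ A, q k ≤ ∑ w ∈ T, rQ w := by
    refine hTs.trans (le_of_eq (Finset.sum_congr rfl fun w hw => ?_))
    rw [hrQ]
    unfold rho
    refine Finset.sum_congr ?_ fun _ _ => rfl
    ext k
    simp only [Finset.mem_filter]
    constructor
    · rintro ⟨h1, h2⟩
      refine ⟨h1, ?_⟩
      rwa [C.f_p (hAv k h1)] at h2
    · rintro ⟨h1, h2⟩
      refine ⟨h1, ?_⟩
      rwa [C.f_p (hAv k h1)]
  set γ : ι → ℝ := fun w => ∑ k ∈ B.filter (fun k => f k (a w) = 0), q k with hγ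
  have hrho : ∀ w ∈ T, rho K q f (a w) = rQ w + (τ - γ w) := by
    intro w hw
    have hwI : w ∈ I := C.mem (hTN hw)
    have h1 : rho K q f (a w) = ∑ k ∈ A.filter (fun k => 0 < f k (a w)), q k +
        ∑ k ∈ B.filter (fun k => 0 < f k (a w)), q k := by
      unfold rho
      rw [← Finset.sum_filter_add_sum_filter_not (K.filter (fun k => 0 < f k (a w)))
        (fun k => 0 < f k (a v)) q, add_comm]
      congr 1
      · refine Finset.sum_congr ?_ fun _ _ => rfl
        ext k; simp only [hA, Finset.mem_filter]; tauto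
      · refine Finset.sum_congr ?_ fun _ _ => rfl
        ext k; simp only [hB, Finset.mem_filter]; tauto
    have h2 : τ = ∑ k ∈ B.filter (fun k => 0 < f k (a w)), q k + γ w := by
      rw [hτ, rho, hγ]
      rw [← Finset.sum_filter_add_sum_filter_not B (fun k => 0 < f k (a w)) q]
      congr 1
      refine Finset.sum_congr ?_ fun _ _ => rfl
      ext k
      simp only [Finset.mem_filter]
      constructor
      · rintro ⟨h3, h4⟩
        exact ⟨h3, le_antisymm (not_lt.1 h4) (hf k (Finset.mem_filter.1 h3).1 w hwI)⟩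
      · rintro ⟨h3, h4⟩
        exact ⟨h3, by rw [h4]; exact lt_irrefl _⟩
    rw [h1, h2]
    show _ = ∑ k ∈ A.filter (fun k => 0 < f k (a w)), q k + _
    ring
  have hγτ : ∀ w ∈ T, γ w ≤ τ := by
    intro w _
    rw [hτ, rho, hγ]
    exact Finset.sum_le_sum_of_subset_of_nonneg (Finset.filter_subset _ _) fun k _ _ => hq k
  have hrγ : ∀ w ∈ T, rQ w ≤ γ w := by
    intro w hw
    have h1 := hvmax w (C.mem (hTN hw))
    rw [hrho w hw] at h1
    linarith
  -- the simplex faces
  have hTk : ∀ k ∈ B, SF I a (insert v (T.filter (fun w => f k (a w) = 0))) := fun k hk =>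
    C.lift hp hi hv hT (hf k (Finset.mem_filter.1 hk).1) (Finset.mem_filter.1 hk).2
  by_contra hno
  push Not at hno
  have hlt : ∀ k ∈ B, τ + ∑ w ∈ T.filter (fun w => f k (a w) = 0), rho K q f (a w)
      < ∑ k ∈ K, q k := by
    intro k hk
    have h1 := hno _ (hTk k hk)
    rwa [Finset.sum_insert (fun h => C.notMem (hTN (Finset.mem_filter.1 h).1))] at h1
  have hBτ : ∑ k ∈ B, q k = τ := rfl
  obtain ⟨k1, hk1, hqk1⟩ : ∃ k ∈ B, 0 < q k := by
    by_contra hno'
    push Not at hno'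
    have := Finset.sum_nonpos hno'
    rw [hBτ] at this
    linarith
  have hS1 : ∑ k ∈ B, q k * (τ + ∑ w ∈ T.filter (fun w => f k (a w) = 0), rho K q f (a w))
      < τ * ∑ k ∈ K, q k := by
    rw [← hBτ, Finset.sum_mul]
    refine Finset.sum_lt_sum (fun k hk => ?_) ⟨k1, hk1, ?_⟩
    · exact mul_le_mul_of_nonneg_left (by rw [hBτ]; exact (hlt k hk).le) (hq k)
    · exact mul_lt_mul_of_pos_left (by rw [hBτ]; exact hlt k1 hk1) hqk1
  have hS2 : ∑ k ∈ B, q k * (τ + ∑ w ∈ T.filter (fun w => f k (a w) = 0), rho K q f (a w))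
      = τ * τ + ∑ w ∈ T, rho K q f (a w) * γ w := by
    simp only [mul_add, Finset.sum_add_distrib]
    congr 1
    · rw [← Finset.sum_mul, hBτ]
    · simp only [Finset.mul_sum, Finset.sum_filter, hγ]
      rw [Finset.sum_comm]
      refine Finset.sum_congr rfl fun w _ => ?_
      refine Finset.sum_congr rfl fun k _ => ?_
      split_ifs
      · ring
      · ring
  have hS3 : τ * ∑ w ∈ T, rQ w ≤ ∑ w ∈ T, rho K q f (a w) * γ w := by
    rw [Finset.mul_sum]
    refine Finset.sum_le_sum fun w hw => ?_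
    rw [hrho w hw]
    have h1 := mul_nonneg (sub_nonneg.2 (hrγ w hw)) (sub_nonneg.2 (hγτ w hw))
    nlinarith
  have hS4 : τ * ∑ k ∈ A, q k ≤ τ * ∑ w ∈ T, rQ w := mul_le_mul_of_nonneg_left hTs' hτ0.le
  rw [hS2] at hS1
  rw [hsum, mul_add] at hS1
  linarith

end Pool.Agent.Lib.MP_257afc_co.BB
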