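import Mathlib
import Pool.Agent.Lib.MP_257afc_co.BB.Frac

/-!
Bounds for the numbers of vertices and of facets.
-/

set_option autoImplicit false

namespace Pool.Agent.Lib.MP_257afc_co.BB

open Finset

variable {W : Type*} [NormedAddCommGroup W] [NormedSpace ℝ W] [FiniteDimensional ℝ W]
variable {ι : Type*} [DecidableEq ι]

omit [FiniteDimensional ℝ W] [DecidableEq ι] in
theorem Ptd.sub {I J : Finset ι} {a : ι → W} (h : Ptd I a) (hJ : J ⊆ I) : Ptd J a := by
  obtain ⟨l, hl⟩ := h
  exact ⟨l, fun i hi => hl i (hJ hi)⟩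

omit [FiniteDimensional ℝ W] in
theorem Irr.sub {I J : Finset ι} {a : ι → W} (h : Irr I a) (hJ : J ⊆ I) : Irr J a := by
  intro i hi c hc he
  refine h i (hJ hi) (fun j => if j ∈ J then c j else 0)
    (fun j => by split_ifs; exact hc j; exact le_rfl) ?_
  rw [he, ← Finset.sum_subset (Finset.erase_subset_erase i hJ)]
  · exact Finset.sum_congr rfl fun j hj => by rw [if_pos (Finset.mem_of_mem_erase hj)]
  · intro j hj hj'
    have : j ∉ J := fun h => hj' (Finset.mem_erase.2 ⟨(Finset.mem_erase.1 hj).1, h⟩)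
    rw [if_neg this, zero_smul]

omit [FiniteDimensional ℝ W] in
/-- Extending a functional from a face: it agrees on the face and is positive off the face. -/
theorem exists_extend {I : Finset ι} {a : ι → W} {f : W →ₗ[ℝ] ℝ} (hf : NN I a f)
    {h : W →ₗ[ℝ] ℝ} (hh : NN (Z I a f) a h) : ∃ g : W →ₗ[ℝ] ℝ, NN I a g ∧
      (∀ i ∈ Z I a f, g (a i) = h (a i)) ∧ ∀ i ∈ I, i ∉ Z I a f → 0 < g (a i) := by
  classical
  have hpos : ∀ i ∈ I, i ∉ Z I a f → 0 < f (a i) := fun i hi hn =>
    lt_of_le_of_ne (hf i hi) (fun he => hn (mem_Z.2 ⟨hi, he.symm⟩))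
  obtain ⟨M, hM⟩ : ∃ M : ℝ, ∀ i ∈ I, i ∉ Z I a f → 0 < M * f (a i) + h (a i) := by
    refine ⟨∑ i ∈ I, (if i ∈ Z I a f then 0 else (|h (a i)| + 1) / f (a i)), ?_⟩
    intro w hw hwT
    have h1 := hpos w hw hwT
    have h2 : (|h (a w)| + 1) / f (a w) ≤
        ∑ i ∈ I, (if i ∈ Z I a f then 0 else (|h (a i)| + 1) / f (a i)) := by
      refine le_trans (le_of_eq ?_) (Finset.single_le_sum (f := fun i =>
        (if i ∈ Z I a f then 0 else (|h (a i)| + 1) / f (a i))) (fun i hi => ?_) hw)
      · simp [hwT]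
      · split_ifs with hc
        · exact le_rfl
        · have := hpos i hi hc
          positivity
    have h3 : |h (a w)| + 1 ≤ (∑ i ∈ I, (if i ∈ Z I a f then 0 else
        (|h (a i)| + 1) / f (a i))) * f (a w) := by
      rwa [← div_le_iff₀ h1]
    have h4 := neg_abs_le (h (a w))
    linarith
  have hon : ∀ i ∈ Z I a f, (M • f + h) (a i) = h (a i) := by
    intro i hi
    rw [LinearMap.add_apply, LinearMap.smul_apply, (mem_Z.1 hi).2, smul_zero, zero_add]
  have hoff : ∀ i ∈ I, i ∉ Z I a f → 0 < (M • f + h) (a i) := by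
    intro i hi hn
    rw [LinearMap.add_apply, LinearMap.smul_apply, smul_eq_mul]
    exact hM i hi hn
  refine ⟨M • f + h, fun i hi => ?_, hon, hoff⟩
  by_cases hZ : i ∈ Z I a f
  · rw [hon i hZ]; exact hh i hZ
  · exact (hoff i hi hZ).le

omit [FiniteDimensional ℝ W] in
/-- A simplex face of a face is a simplex face. -/
theorem SF.of_face {I : Finset ι} {a : ι → W} {f : W →ₗ[ℝ] ℝ} (hf : NN I a f) {T : Finset ι}
    (hT : SF (Z I a f) a T) : SF I a T := by
  obtain ⟨h1, h2, h, hh, hz⟩ := hT
  obtain ⟨g, hg, hon, hoff⟩ := exists_extend hf hh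
  refine ⟨h1.trans Z_sub, h2, g, hg, fun i hi => ?_⟩
  by_cases hZ : i ∈ Z I a f
  · rw [hon i hZ]; exact hz i hZ
  · constructor
    · intro h0; exact absurd h0 (hoff i hi hZ).ne'
    · intro hT; exact absurd (h1 hT) hZ

omit [FiniteDimensional ℝ W] [DecidableEq ι] in
theorem rk_le_card {a : ι → W} {X : Finset ι} : rk a X ≤ X.card := by
  classical
  unfold rk
  have h1 := finrank_span_finset_le_card (R := ℝ) (X.image a)
  have h2 : ((X.image a : Finset W) : Set W) = a '' (X : Set ι) := by simp
  rw [h2] at h1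
  exact h1.trans Finset.card_image_le

/-- **Few vertices.** -/
theorem card_bound {k : ℕ} (hk : 1 ≤ k) : ∀ (n : ℕ) (I : Finset ι) (a : ι → W), Ptd I a →
    Irr I a → rk a I = n + k → (∀ T, SF I a T → T.card ≤ k) →
    k ^ (n + 1) ≤ (k - 1) ^ n * I.card := by
  classical
  intro n
  induction n with
  | zero =>
    intro I a _ _ hr _
    have := rk_le_card (a := a) (X := I)
    simp at hr ⊢
    omega
  | succ n ih =>
    intro I a hp hi hr hT
    obtain ⟨l, hl⟩ := id hp
    obtain ⟨s, hs1, hs2, hs3⟩ := exists_facets k I a l hp hi (fun T h _ => hT T h)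
    have hIpos : 0 < I.card := by
      have := rk_le_card (a := a) (X := I)
      omega
    -- some facet misses at least `|I| / k` vertices
    obtain ⟨f, hf, hfc⟩ : ∃ f ∈ s, I.card ≤ k * (I \ Z I a f).card := by
      by_contra hno
      push Not at hno
      have h1 : I.card ≤ ∑ f ∈ s, (I \ Z I a f).card := by
        refine le_trans (Finset.card_le_card (t := s.biUnion (fun f => I \ Z I a f)) ?_)
          Finset.card_biUnion_le
        intro i hi'
        obtain ⟨f, hf, hfi⟩ := hs3 i hi' (hl i hi')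
        exact Finset.mem_biUnion.2 ⟨f, hf, Finset.mem_sdiff.2 ⟨hi', fun h =>
          hfi.ne' (mem_Z.1 h).2⟩⟩
      have h2 : s.Nonempty := by
        by_contra h
        rw [Finset.not_nonempty_iff_eq_empty] at h
        rw [h] at h1
        simp at h1
        rw [h1] at hIpos
        simp at hIpos
      have h3 : ∑ f ∈ s, k * (I \ Z I a f).card < ∑ _f ∈ s, I.card :=
        Finset.sum_lt_sum_of_nonempty h2 fun f hf => hno f hf
      rw [← Finset.mul_sum, Finset.sum_const, smul_eq_mul] at h3
      have h4 : k * I.card ≤ k * ∑ f ∈ s, (I \ Z I a f).card := Nat.mul_le_mul_left _ h1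
      have h5 : s.card * I.card ≤ k * I.card := Nat.mul_le_mul_right _ hs1
      omega
    have hfF := hs2 f hf
    have hZ := ih (Z I a f) a (hp.sub Z_sub) (hi.sub Z_sub) (by have := hfF.2; omega)
      (fun T h => hT T (h.of_face hfF.1))
    have hc : (I \ Z I a f).card + (Z I a f).card = I.card :=
      Finset.card_sdiff_add_card_eq_card Z_sub
    have hk1 : k * (Z I a f).card ≤ (k - 1) * I.card := by
      obtain ⟨m, rfl⟩ : ∃ m, k = m + 1 := ⟨k - 1, by omega⟩
      simp only [Nat.add_sub_cancel]
      have h6 : (m + 1) * ((I \ Z I a f).card + (Z I a f).card) = (m + 1) * I.card := by rw [hc]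
      nlinarith
    calc k ^ (n + 1 + 1) = k * k ^ (n + 1) := by ring
      _ ≤ k * ((k - 1) ^ n * (Z I a f).card) := Nat.mul_le_mul_left _ hZ
      _ = (k - 1) ^ n * (k * (Z I a f).card) := by ring
      _ ≤ (k - 1) ^ n * ((k - 1) * I.card) := Nat.mul_le_mul_left _ hk1
      _ = (k - 1) ^ (n + 1) * I.card := by ring

/-- The vertex sets of the facets. -/
noncomputable def facets (I : Finset ι) (a : ι → W) : Finset (Finset ι) := by
  classical
  exact I.powerset.filter (fun X => ∃ f, Fct I a f ∧ Z I a f = X)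

omit [FiniteDimensional ℝ W] [DecidableEq ι] in
theorem mem_facets {I : Finset ι} {a : ι → W} {X : Finset ι} :
    X ∈ facets I a ↔ ∃ f, Fct I a f ∧ Z I a f = X := by
  classical
  unfold facets
  rw [Finset.mem_filter, Finset.mem_powerset]
  constructor
  · exact fun h => h.2
  · rintro ⟨f, hf, rfl⟩
    exact ⟨Z_sub, f, hf, rfl⟩

/-- There are at least `rank` many facets. -/
theorem rk_le_facets : ∀ (n : ℕ) (I : Finset ι) (a : ι → W), rk a I = n → Ptd I a →
    n ≤ (facets I a).card := by
  classical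
  intro n
  induction n with
  | zero => intro I a _ _; exact Nat.zero_le _
  | succ n ih =>
    intro I a hr hp
    obtain ⟨l, hl⟩ := id hp
    have hIne : I.Nonempty := by
      rw [← Finset.card_pos]
      have := rk_le_card (a := a) (X := I)
      omega
    obtain ⟨i0, hi0⟩ := hIne
    obtain ⟨f, hf, hfi0, -⟩ := exists_facet _ l (fun i hi => (hl i hi).le) rfl i0 hi0 (hl i0 hi0)
    have hZr : rk a (Z I a f) = n := by have := hf.2; omega
    have hih := ih (Z I a f) a hZr (hp.sub Z_sub)
    -- lift the ridges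
    have hlift : ∀ X ∈ facets (Z I a f) a, ∃ Y ∈ (facets I a).erase (Z I a f),
        Y ∩ Z I a f = X := by
      intro X hX
      obtain ⟨r, hr', rfl⟩ := mem_facets.1 hX
      -- a vertex of the facet missed by the ridge
      obtain ⟨u, hu, hru⟩ : ∃ u ∈ Z I a f, 0 < r (a u) := by
        by_contra hno
        push Not at hno
        have h1 : Z (Z I a f) a r = Z I a f := by
          refine Finset.Subset.antisymm Z_sub fun i hi => mem_Z.2 ⟨hi, ?_⟩
          exact le_antisymm (hno i hi) (hr'.1 i hi)
        have := hr'.2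
        rw [h1] at this
        omega
      obtain ⟨g, hg, hon, hoff⟩ := exists_extend hf.1 hr'.1
      obtain ⟨g', hg', hgu, hsub⟩ := exists_facet _ g hg rfl u (Z_sub hu) (by
        rw [hon u hu]; exact hru)
      refine ⟨Z I a g', Finset.mem_erase.2 ⟨fun h => ?_, mem_facets.2 ⟨g', hg', rfl⟩⟩, ?_⟩
      · rw [← h] at hu
        exact hgu.ne' (mem_Z.1 hu).2
      · refine Finset.Subset.antisymm (fun i hi => ?_) (fun i hi => ?_)
        · rw [Finset.mem_inter] at hi
          by_contra hni
          have hri : 0 < r (a i) := lt_of_le_of_ne (hr'.1 i hi.2) fun he =>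
            hni (mem_Z.2 ⟨hi.2, he.symm⟩)
          -- the span of the ridge and `i` is the span of the facet
          have hlt : rk a (Z (Z I a f) a r) < rk a (insert i (Z (Z I a f) a r)) := by
            refine Submodule.finrank_lt_finrank_of_lt (lt_of_le_of_ne (Submodule.span_mono
              (Set.image_mono (by exact_mod_cast Finset.subset_insert _ _))) fun he => ?_)
            have h1 : a i ∈ Submodule.span ℝ (a '' ((insert i (Z (Z I a f) a r) : Finset ι) :
              Set ι)) := Submodule.subset_span ⟨i, by simp, rfl⟩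
            rw [← he] at h1
            have h2 : Submodule.span ℝ (a '' ((Z (Z I a f) a r : Finset ι) : Set ι)) ≤
                LinearMap.ker r := by
              rw [Submodule.span_le]
              rintro _ ⟨j, hj, rfl⟩
              exact (mem_Z.1 (by exact_mod_cast hj)).2
            exact hri.ne' (h2 h1)
          have hins : insert i (Z (Z I a f) a r) ⊆ Z I a f :=
            Finset.insert_subset hi.2 Z_sub
          have heq : Submodule.span ℝ (a '' ((insert i (Z (Z I a f) a r) : Finset ι) : Set ι)) =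
              Submodule.span ℝ (a '' ((Z I a f : Finset ι) : Set ι)) := by
            refine Submodule.eq_of_le_of_finrank_le (Submodule.span_mono
              (Set.image_mono (by exact_mod_cast hins))) ?_
            have := hr'.2
            show rk a (Z I a f) ≤ rk a (insert i (Z (Z I a f) a r))
            omega
          have h3 : Submodule.span ℝ (a '' ((insert i (Z (Z I a f) a r) : Finset ι) : Set ι)) ≤
              LinearMap.ker g' := by
            rw [Submodule.span_le]
            rintro _ ⟨j, hj, rfl⟩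
            rcases Finset.mem_insert.1 (by exact_mod_cast hj) with rfl | hj
            · exact (mem_Z.1 hi.1).2
            · have h4 : j ∈ Z I a g := by
                rw [mem_Z] at hj ⊢
                exact ⟨Z_sub hj.1, by rw [hon j hj.1]; exact hj.2⟩
              exact (mem_Z.1 (hsub h4)).2
          rw [heq] at h3
          exact hgu.ne' (h3 (Submodule.subset_span ⟨u, by exact_mod_cast hu, rfl⟩))
        · have hi' := mem_Z.1 hi
          refine Finset.mem_inter.2 ⟨hsub ?_, hi'.1⟩
          exact mem_Z.2 ⟨Z_sub hi'.1, by rw [hon i hi'.1]; exact hi'.2⟩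
    have hcard : (facets (Z I a f) a).card ≤ ((facets I a).erase (Z I a f)).card := by
      choose! Y hY1 hY2 using hlift
      refine Finset.card_le_card_of_injOn Y (fun X hX => hY1 X hX) fun X hX X' hX' h => ?_
      rw [← hY2 X hX, ← hY2 X' hX', h]
    rw [Finset.card_erase_of_mem (mem_facets.2 ⟨f, hf, rfl⟩)] at hcard
    have hpos : 0 < (facets I a).card := Finset.card_pos.2 ⟨_, mem_facets.2 ⟨f, hf, rfl⟩⟩
    omega

/-- Every vertex lies in at least `rank - 1` facets. -/
theorem facets_at {I : Finset ι} {a : ι → W} (hp : Ptd I a) (hi : Irr I a) {v : ι} (hv : v ∈ I) :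
    rk a I ≤ ((facets I a).filter (fun X => v ∈ X)).card + 1 := by
  classical
  obtain ⟨C⟩ := exists_ctr hp hi hv
  have h1 := rk_le_facets _ C.N (fun w => C.p (a w)) rfl C.ptd
  rw [C.rk_I hp hv]
  refine Nat.add_le_add_right (h1.trans ?_) 1
  have hlift : ∀ X ∈ facets C.N (fun w => C.p (a w)), ∃ Y ∈ (facets I a).filter (fun X => v ∈ X),
      Y ∩ C.N = X := by
    intro X hX
    obtain ⟨f, hf, rfl⟩ := mem_facets.1 hX
    have hfv : (f ∘ₗ C.p) (a v) = 0 := by rw [LinearMap.comp_apply, C.p_v, map_zero]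
    refine ⟨Z I a (f ∘ₗ C.p), Finset.mem_filter.2 ⟨mem_facets.2 ⟨_, C.fct hp hv hf, rfl⟩,
      mem_Z.2 ⟨hv, hfv⟩⟩, ?_⟩
    ext w
    simp only [Finset.mem_inter, mem_Z, LinearMap.comp_apply]
    constructor
    · rintro ⟨⟨_, h3⟩, h4⟩; exact ⟨h4, h3⟩
    · rintro ⟨h3, h4⟩; exact ⟨⟨C.mem h3, h4⟩, h3⟩
  choose! Y hY1 hY2 using hlift
  refine Finset.card_le_card_of_injOn Y (fun X hX => hY1 X hX) fun X hX X' hX' h => ?_
  rw [← hY2 X hX, ← hY2 X' hX', h]

/-- **Few facets.** -/
theorem facets_bound {k : ℕ} {I : Finset ι} {a : ι → W} (hp : Ptd I a) (hi : Irr I a)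
    (hT : ∀ T, SF I a T → T.card ≤ k) {d : ℕ} (hr : rk a I = d + 1) :
    k * d ≤ (k - 1) * (facets I a).card := by
  classical
  have hfun : ∀ X ∈ facets I a, ∃ f, Fct I a f ∧ Z I a f = X := fun X hX => mem_facets.1 hX
  choose! F hF1 hF2 using hfun
  obtain ⟨T, hTS, hsum⟩ := exists_SF_rho (κ := Finset ι) (fun _ => (1 : ℝ)) (fun _ => zero_le_one)
    _ I a rfl hp hi (facets I a) F (fun X hX => (hF1 X hX).1) (fun X hX => by
      by_contra hno
      push Not at hno
      have h1 : Z I a (F X) = I := Finset.Subset.antisymm Z_sub fun i hi =>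
        mem_Z.2 ⟨hi, le_antisymm (hno i hi) ((hF1 X hX).1 i hi)⟩
      have h2 := (hF1 X hX).2
      rw [h1] at h2
      omega)
  have hrho : ∀ i ∈ T, rho (facets I a) (fun _ => (1 : ℝ)) F (a i) ≤
      ((facets I a).card : ℝ) - d := by
    intro i hiT
    have hiI := hTS.1 hiT
    have h1 := facets_at hp hi hiI
    rw [hr] at h1
    have h2 : rho (facets I a) (fun _ => (1 : ℝ)) F (a i) =
        ((facets I a).filter (fun X => ¬ i ∈ X)).card := by
      unfold rho
      rw [Finset.sum_const, nsmul_eq_mul, mul_one]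
      congr 2
      ext X
      simp only [Finset.mem_filter, and_congr_right_iff]
      intro hX
      have h3 := hF2 X hX
      have h4 := (hF1 X hX).1 i hiI
      constructor
      · intro h5 h6
        rw [← h3] at h6
        exact h5.ne' (mem_Z.1 h6).2
      · intro h5
        refine lt_of_le_of_ne h4 fun h6 => h5 ?_
        rw [← h3]
        exact mem_Z.2 ⟨hiI, h6.symm⟩
    have h3 := Finset.card_filter_add_card_filter_not (s := facets I a) (fun X => i ∈ X)
    rw [h2]
    have h4 : (((facets I a).filter (fun X => ¬ i ∈ X)).card : ℝ) + d ≤ (facets I a).card := by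
      exact_mod_cast (by omega :
        ((facets I a).filter (fun X => ¬ i ∈ X)).card + d ≤ (facets I a).card)
    linarith
  have hc := hT T hTS
  have h5 : ((facets I a).card : ℝ) ≤ T.card * (((facets I a).card : ℝ) - d) := by
    calc ((facets I a).card : ℝ) = ∑ _k ∈ facets I a, (1 : ℝ) := by simp
      _ ≤ _ := hsum
      _ ≤ ∑ _i ∈ T, (((facets I a).card : ℝ) - d) := Finset.sum_le_sum hrho
      _ = _ := by rw [Finset.sum_const, nsmul_eq_mul]
  have h6 : (d : ℝ) + 1 ≤ (facets I a).card := by
    exact_mod_cast hr ▸ rk_le_facets _ I a rfl hp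
  have h7 : (T.card : ℝ) * (((facets I a).card : ℝ) - d) ≤ k * (((facets I a).card : ℝ) - d) :=
    mul_le_mul_of_nonneg_right (by exact_mod_cast hc) (by linarith)
  rcases Nat.eq_zero_or_pos k with rfl | hk
  · simp
  obtain ⟨m, rfl⟩ : ∃ m, k = m + 1 := ⟨k - 1, by omega⟩
  simp only [Nat.add_sub_cancel]
  have h8 : ((m + 1 : ℕ) : ℝ) * d ≤ m * (facets I a).card := by
    push_cast at h7 ⊢
    nlinarith
  exact_mod_cast h8

end Pool.Agent.Lib.MP_257afc_co.BB
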