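import Mathlib
import Pool.Agent.Lib.MP_257afc_co.BB.Count
import Pool.Agent.Lib.MP_257afc_co.Geo

/-!
Polytopes in Euclidean space and their homogenised vertex configurations.
-/

set_option autoImplicit false

namespace Pool.Agent.Lib.MP_257afc_co.BB

open Finset Pool.Agent.Lib.MP_257afc_co

variable {W : Type*} [NormedAddCommGroup W] [NormedSpace ℝ W] [FiniteDimensional ℝ W]
variable {ι : Type*} [DecidableEq ι]

omit [FiniteDimensional ℝ W] in
/-- Subsets of simplex faces are simplex faces. -/
theorem SF.subset {I : Finset ι} {a : ι → W} {T T' : Finset ι} (hT : SF I a T) (h : T' ⊆ T) :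
    SF I a T' := by
  classical
  obtain ⟨h1, h2, f, hf, hz⟩ := hT
  have hZ : Z I a f = T := by
    ext i
    rw [mem_Z]
    exact ⟨fun hi => (hz i hi.1).1 hi.2, fun hi => ⟨h1 hi, (hz i (h1 hi)).2 hi⟩⟩
  obtain ⟨e, he⟩ := exists_interp h2 (fun i => if i ∈ T' then 0 else 1)
  obtain ⟨g, hg, hon, hoff⟩ := exists_extend (h := e) hf (fun i hi => by
    rw [hZ] at hi
    rw [he i hi]; split_ifs <;> norm_num)
  refine ⟨h.trans h1, fun c hc => ?_, g, hg, fun i hi => ?_⟩
  · have := h2 (fun i => if i ∈ T' then c i else 0) (by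
      rw [← hc, ← Finset.sum_subset h]
      · exact Finset.sum_congr rfl fun i hi => by rw [if_pos hi]
      · intro i _ hi; rw [if_neg hi, zero_smul])
    intro i hi
    have h3 := this i (h hi)
    rwa [if_pos hi] at h3
  · by_cases hiT : i ∈ T
    · rw [hon i (by rw [hZ]; exact hiT), he i hiT]
      constructor
      · intro h3
        by_contra h4
        rw [if_neg h4] at h3
        norm_num at h3
      · intro h3; rw [if_pos h3]
    · constructor
      · intro h3; exact absurd h3 (hoff i hi (by rw [hZ]; exact hiT)).ne'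
      · intro h3; exact absurd (h h3) hiT

section Hom

variable {E : Type*} [NormedAddCommGroup E] [NormedSpace ℝ E]

/-- Homogenisation. -/
def hom (x : E) : E × ℝ := (x, 1)

theorem ptd_hom (X : Finset E) : Ptd X hom :=
  ⟨LinearMap.snd ℝ E ℝ, fun i _ => by simp [hom]⟩

theorem irr_hom [DecidableEq E] {X : Finset E}
    (hX : (X : Set E) = (convexHull ℝ (X : Set E)).extremePoints ℝ) : Irr X hom := by
  intro x hx c hc he
  have h1 : x ∈ (convexHull ℝ (X : Set E)).extremePoints ℝ := by rw [← hX]; exact_mod_cast hx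
  refine notMem_hull_erase h1 ?_
  have e1 := congrArg Prod.fst he
  have e2 := congrArg Prod.snd he
  simp only [hom, Prod.fst_sum, Prod.snd_sum, Prod.smul_fst, Prod.smul_snd, smul_eq_mul,
    mul_one] at e1 e2
  rw [Finset.mem_convexHull']
  exact ⟨c, fun y _ => hc y, e2.symm, e1.symm⟩

theorem rk_hom [FiniteDimensional ℝ E] {Y : Finset E} (hY : Y.Nonempty) :
    rk hom Y = Module.finrank ℝ (vectorSpan ℝ (Y : Set E)) + 1 := by
  obtain ⟨y0, hy0⟩ := hY
  have hy0' : y0 ∈ (Y : Set E) := by exact_mod_cast hy0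
  have hsup : Submodule.span ℝ (hom '' (Y : Set E)) =
      (vectorSpan ℝ (Y : Set E)).map (LinearMap.inl ℝ E ℝ) ⊔ Submodule.span ℝ {hom y0} := by
    apply le_antisymm
    · rw [Submodule.span_le]
      rintro _ ⟨y, hy, rfl⟩
      have h1 : hom y = LinearMap.inl ℝ E ℝ (y - y0) + hom y0 := by simp [hom]
      rw [SetLike.mem_coe, h1]
      refine add_mem (Submodule.mem_sup_left (Submodule.mem_map_of_mem ?_))
        (Submodule.mem_sup_right (Submodule.mem_span_singleton_self _))
      exact vsub_mem_vectorSpan ℝ hy hy0'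
    · rw [sup_le_iff]
      constructor
      · rw [vectorSpan_eq_span_vsub_set_right ℝ hy0', Submodule.map_span, Submodule.span_le]
        rintro _ ⟨_, ⟨y, hy, rfl⟩, rfl⟩
        have h1 : LinearMap.inl ℝ E ℝ (y -ᵥ y0) = hom y - hom y0 := by simp [hom]
        rw [SetLike.mem_coe, h1]
        exact sub_mem (Submodule.subset_span ⟨y, hy, rfl⟩) (Submodule.subset_span ⟨y0, hy0', rfl⟩)
      · rw [Submodule.span_le]
        rintro _ rfl
        exact Submodule.subset_span ⟨y0, hy0', rfl⟩
  have hinf : (vectorSpan ℝ (Y : Set E)).map (LinearMap.inl ℝ E ℝ) ⊓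
      Submodule.span ℝ {hom y0} = ⊥ := by
    rw [Submodule.eq_bot_iff]
    rintro x ⟨⟨z, _, hz⟩, hx2⟩
    obtain ⟨s, rfl⟩ := Submodule.mem_span_singleton.1 hx2
    have h1 := congrArg Prod.snd hz
    simp only [LinearMap.inl_apply, hom, Prod.smul_snd, smul_eq_mul, mul_one] at h1
    rw [← h1, zero_smul]
  have hf := Submodule.finrank_sup_add_finrank_inf_eq
    ((vectorSpan ℝ (Y : Set E)).map (LinearMap.inl ℝ E ℝ)) (Submodule.span ℝ {hom y0})
  have hne : hom y0 ≠ 0 := fun h => by
    have := congrArg Prod.snd h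
    simp [hom] at this
  rw [hinf, finrank_bot, add_zero, finrank_span_singleton hne] at hf
  unfold rk
  rw [hsup, hf]
  congr 1
  exact (LinearEquiv.finrank_eq (Submodule.equivMapOfInjective (LinearMap.inl ℝ E ℝ)
    LinearMap.inl_injective _)).symm

theorem zero_on_hull {Y : Finset E} {f : E × ℝ →ₗ[ℝ] ℝ} (hf : ∀ y ∈ Y, f (hom y) = 0) {x : E}
    (hx : x ∈ convexHull ℝ (Y : Set E)) : f (hom x) = 0 := by
  rw [Finset.mem_convexHull'] at hx
  obtain ⟨w, _, hw1, hwx⟩ := hx
  have h1 : hom x = ∑ y ∈ Y, w y • hom y := by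
    rw [← hwx]
    refine Prod.ext ?_ ?_
    · simp only [hom, Prod.fst_sum, Prod.smul_fst]
    · simp only [hom, Prod.snd_sum, Prod.smul_snd, smul_eq_mul, mul_one, hw1]
  rw [h1, map_sum]
  exact Finset.sum_eq_zero fun y hy => by rw [map_smul, hf y hy, smul_zero]

/-- A functional nonnegative on the homogenised vertices exposes the hull of its zero set. -/
theorem exposed_of_zero [FiniteDimensional ℝ E] {X T : Finset E} {f : E × ℝ →ₗ[ℝ] ℝ}
    (hTX : T ⊆ X) (hT : T.Nonempty)
    (hf : NN X hom f) (hz : ∀ x ∈ X, f (hom x) = 0 ↔ x ∈ T) :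
    IsExposed ℝ (convexHull ℝ (X : Set E)) (convexHull ℝ (T : Set E)) := by
  have hsplit : ∀ x : E, f (hom x) = f (x, 0) + f (0, 1) := fun x => by
    rw [← map_add]; simp [hom]
  set l : E →ₗ[ℝ] ℝ := -(f ∘ₗ LinearMap.inl ℝ E ℝ) with hl
  have hlx : ∀ x, l x = - f (x, 0) := fun x => by simp [hl]
  refine exposed_hull (LinearMap.toContinuousLinearMap l) (f (0, 1)) hTX ?_ ?_ hT
  · intro z hz'
    have h1 := (hz z (hTX hz')).2 hz'
    rw [hsplit] at h1
    show l z = _
    rw [hlx]; linarith
  · intro z hzX hzT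
    have h1 := lt_of_le_of_ne (hf z hzX) (fun h => hzT ((hz z hzX).1 h.symm))
    rw [hsplit] at h1
    show l z < _
    rw [hlx]; linarith

theorem direction_hull (Y : Finset E) :
    (affineSpan ℝ (convexHull ℝ (Y : Set E))).direction = vectorSpan ℝ (Y : Set E) := by
  rw [affineSpan_convexHull, direction_affineSpan]

theorem finite_exposed {X : Finset E} :
    {F : Set E | F.Nonempty ∧ IsExposed ℝ (convexHull ℝ (X : Set E)) F}.Finite := by
  classical
  have hkey : ∀ F : Set E, F.Nonempty → IsExposed ℝ (convexHull ℝ (X : Set E)) F →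
      F = convexHull ℝ ((X.filter (fun x => x ∈ F) : Finset E) : Set E) := by
    intro F hne hF
    obtain ⟨l, hl⟩ := hF hne
    obtain ⟨x0, hx0⟩ := hne
    have hx0' : x0 ∈ convexHull ℝ (X : Set E) := by rw [hl] at hx0; exact hx0.1
    have hmax : ∀ y ∈ convexHull ℝ (X : Set E), l y ≤ l x0 := by
      rw [hl] at hx0; exact hx0.2
    have hmemF : ∀ x, x ∈ F ↔ x ∈ convexHull ℝ (X : Set E) ∧ l x = l x0 := by
      intro x
      constructor
      · intro hx
        have hx1 := hx
        rw [hl] at hx1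
        exact ⟨hx1.1, le_antisymm (hmax x hx1.1) (hx1.2 x0 hx0')⟩
      · rintro ⟨h1, h2⟩
        rw [hl]
        exact ⟨h1, fun y hy => by rw [h2]; exact hmax y hy⟩
    refine Set.Subset.antisymm (fun x hx => ?_) ?_
    · have hx1 := (hmemF x).1 hx
      have hx2 := hx1.1
      rw [Finset.mem_convexHull'] at hx2
      obtain ⟨w, hw0, hw1, hwx⟩ := hx2
      have hz : ∀ y ∈ X, w y * (l x0 - l y) = 0 := by
        have h3 : ∑ y ∈ X, w y * (l x0 - l y) = 0 := by
          simp only [mul_sub, Finset.sum_sub_distrib]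
          rw [← Finset.sum_mul, hw1, one_mul]
          have : l x = ∑ y ∈ X, w y * l y := by
            rw [← hwx, map_sum]
            exact Finset.sum_congr rfl fun y _ => by rw [map_smul, smul_eq_mul]
          rw [← this, hx1.2, sub_self]
        exact (Finset.sum_eq_zero_iff_of_nonneg (fun y hy => mul_nonneg (hw0 y hy)
          (sub_nonneg.2 (hmax y (subset_convexHull ℝ _ (by exact_mod_cast hy)))))).1 h3
      have hw2 : ∀ y ∈ X, y ∉ X.filter (fun x => x ∈ F) → w y = 0 := by
        intro y hy hyF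
        rcases mul_eq_zero.1 (hz y hy) with h | h
        · exact h
        · exact absurd (Finset.mem_filter.2 ⟨hy, (hmemF y).2 ⟨subset_convexHull ℝ _
            (by exact_mod_cast hy), by linarith⟩⟩) hyF
      rw [Finset.mem_convexHull']
      refine ⟨w, fun y hy => hw0 y (Finset.mem_filter.1 hy).1, ?_, ?_⟩
      · rw [← hw1]
        exact Finset.sum_subset (Finset.filter_subset _ _) fun y hy hyT => hw2 y hy hyT
      · rw [← hwx]
        exact Finset.sum_subset (Finset.filter_subset _ _) fun y hy hyT => by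
          rw [hw2 y hy hyT, zero_smul]
    · have hconv : Convex ℝ F := by
        intro x hx y hy s t hs ht hst
        rw [hmemF] at hx hy ⊢
        refine ⟨(convex_convexHull ℝ (X : Set E)) hx.1 hy.1 hs ht hst, ?_⟩
        rw [map_add, map_smul, map_smul, hx.2, hy.2, ← add_smul, hst, one_smul]
      refine convexHull_min (fun x hx => ?_) hconv
      exact (Finset.mem_filter.1 (by exact_mod_cast hx)).2
  refine Set.Finite.subset (X.powerset.finite_toSet.image
    (fun Y : Finset E => convexHull ℝ (Y : Set E))) fun F hF => ?_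
  exact ⟨X.filter (fun x => x ∈ F), Finset.mem_coe.2 (Finset.mem_powerset.2
    (Finset.filter_subset _ _)), (hkey F hF.1 hF.2).symm⟩

end Hom

end Pool.Agent.Lib.MP_257afc_co.BB
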