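import Mathlib
import Pool.Agent.Lib.MP_257afc_co.BB.Geom

/-!
Polytopes without `k`-simplex faces: facets with empty intersection, many vertices, many facets.
-/

set_option autoImplicit false

namespace Pool.Agent.Lib.MP_257afc_co.BB

open Finset Pool.Agent.Lib.MP_257afc_co

theorem main (k d m : ℕ) (hk : 1 ≤ k) (hkd : k ≤ d) (S : Finset (EuclideanSpace ℝ (Fin m)))
    (hS : Module.finrank ℝ (affineSpan ℝ (S : Set (EuclideanSpace ℝ (Fin m)))).direction = d)
    (hno : ¬ ∃ F : Set (EuclideanSpace ℝ (Fin m)), F.Nonempty ∧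
      IsExposed ℝ (convexHull ℝ (S : Set (EuclideanSpace ℝ (Fin m)))) F ∧
      Module.finrank ℝ (affineSpan ℝ F).direction = k ∧
      ∃ T : Finset (EuclideanSpace ℝ (Fin m)), T.card = k + 1 ∧
        AffineIndependent ℝ (fun x : T => (x : EuclideanSpace ℝ (Fin m))) ∧
        F = convexHull ℝ (T : Set (EuclideanSpace ℝ (Fin m)))) :
    (∃ s : Finset (Set (EuclideanSpace ℝ (Fin m))), s.card ≤ k ∧
      (∀ F ∈ s, F.Nonempty ∧
        IsExposed ℝ (convexHull ℝ (S : Set (EuclideanSpace ℝ (Fin m)))) F ∧
        Module.finrank ℝ (affineSpan ℝ F).direction = d - 1) ∧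
      ∀ x, x ∈ convexHull ℝ (S : Set (EuclideanSpace ℝ (Fin m))) → ∃ F ∈ s, x ∉ F) ∧
    k ^ (d + 2 - k) ≤ (k - 1) ^ (d + 1 - k) *
      ((convexHull ℝ (S : Set (EuclideanSpace ℝ (Fin m)))).extremePoints ℝ).ncard ∧
    {F : Set (EuclideanSpace ℝ (Fin m)) | F.Nonempty ∧
      IsExposed ℝ (convexHull ℝ (S : Set (EuclideanSpace ℝ (Fin m)))) F ∧
      Module.finrank ℝ (affineSpan ℝ F).direction = d - 1}.Finite ∧
    k * d ≤ (k - 1) * {F : Set (EuclideanSpace ℝ (Fin m)) | F.Nonempty ∧
      IsExposed ℝ (convexHull ℝ (S : Set (EuclideanSpace ℝ (Fin m)))) F ∧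
      Module.finrank ℝ (affineSpan ℝ F).direction = d - 1}.ncard := by
  classical
  obtain ⟨X, hXS, hXext, hXhull⟩ := exists_ext S
  rw [← hXhull] at hno ⊢
  have hXext' : (X : Set (EuclideanSpace ℝ (Fin m))) =
      (convexHull ℝ (X : Set (EuclideanSpace ℝ (Fin m)))).extremePoints ℝ := by
    rw [hXhull]; exact hXext
  have hspan : Module.finrank ℝ (vectorSpan ℝ (X : Set (EuclideanSpace ℝ (Fin m)))) = d := by
    rw [← direction_affineSpan, ← affineSpan_convexHull, hXhull, affineSpan_convexHull, hS]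
  have hXne : X.Nonempty := by
    by_contra h
    rw [Finset.not_nonempty_iff_eq_empty] at h
    rw [h, Finset.coe_empty, vectorSpan_empty, finrank_bot] at hspan
    omega
  have hp := ptd_hom X
  have hi := irr_hom hXext'
  have hr : rk hom X = d + 1 := by
    rw [rk_hom hXne, hspan]
  -- independent sets
  have hrkT : ∀ T : Finset (EuclideanSpace ℝ (Fin m)), Ind T hom → rk hom T = T.card := by
    intro T hT
    have hli : LinearIndependent ℝ (fun i : T => hom (i : EuclideanSpace ℝ (Fin m))) := by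
      rw [Fintype.linearIndependent_iff]
      intro c hc i
      have := hT (fun j => if h : j ∈ T then c ⟨j, h⟩ else 0) (by
        rw [← Finset.sum_attach]
        rw [← hc]
        refine Finset.sum_congr rfl fun j _ => ?_
        simp) i.1 i.2
      simpa using this
    unfold rk
    have h1 := finrank_span_eq_card hli
    have h2 : Set.range (fun i : T => hom (i : EuclideanSpace ℝ (Fin m))) =
        hom '' (T : Set (EuclideanSpace ℝ (Fin m))) := by
      ext x
      simp only [Set.mem_range, Subtype.exists, Set.mem_image, Finset.mem_coe, exists_prop]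
    rw [h2] at h1
    rw [h1, Fintype.card_coe]
  have hT : ∀ T, SF X hom T → T.card ≤ k := by
    intro T hT
    by_contra hlt
    obtain ⟨T', hT'T, hT'c⟩ := Finset.exists_subset_card_eq (show k + 1 ≤ T.card by omega)
    obtain ⟨h1, h2, f, hf, hz⟩ := hT.subset hT'T
    have hne : T'.Nonempty := by rw [← Finset.card_pos]; omega
    refine hno ⟨convexHull ℝ (T' : Set (EuclideanSpace ℝ (Fin m))), ?_, ?_, ?_, T', hT'c, ?_, rfl⟩
    · obtain ⟨t, ht⟩ := hne
      exact ⟨t, subset_convexHull ℝ _ (by exact_mod_cast ht)⟩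
    · exact exposed_of_zero h1 hne hf hz
    · have h3 := rk_hom hne
      rw [hrkT T' h2, hT'c] at h3
      rw [direction_hull]; omega
    · rw [affineIndependent_iff]
      intro s w hw0 hws i his
      have h3 := h2 (fun j => if h : j ∈ T' then (if (⟨j, h⟩ : T') ∈ s then w ⟨j, h⟩ else 0) else 0) (by
        rw [← Finset.sum_attach]
        have h4 : ∀ j : T', (if h : (j : EuclideanSpace ℝ (Fin m)) ∈ T' then
            (if (⟨j, h⟩ : T') ∈ s then w ⟨j, h⟩ else 0) else 0) =
            if j ∈ s then w j else 0 := fun j => by simp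
        simp only [h4]
        have h5 : ∑ j ∈ T'.attach, (if j ∈ s then w j else 0) •
            hom (j : EuclideanSpace ℝ (Fin m)) = ∑ j ∈ s, w j • hom (j : EuclideanSpace ℝ (Fin m)) := by
          simp only [ite_smul, zero_smul]
          rw [← Finset.sum_filter]
          refine Finset.sum_congr ?_ fun _ _ => rfl
          ext j; simp
        rw [h5]
        refine Prod.ext ?_ ?_
        · simp only [hom, Prod.fst_sum, Prod.smul_fst, Prod.fst_zero]
          exact hws
        · simp only [hom, Prod.snd_sum, Prod.smul_snd, Prod.snd_zero, smul_eq_mul, mul_one]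
          exact hw0) i.1 i.2
      simpa [his] using h3
  -- facets
  have hfac : ∀ f, Fct X hom f → (convexHull ℝ ((Z X hom f : Finset _) :
      Set (EuclideanSpace ℝ (Fin m)))).Nonempty ∧
      IsExposed ℝ (convexHull ℝ (X : Set (EuclideanSpace ℝ (Fin m))))
        (convexHull ℝ ((Z X hom f : Finset _) : Set (EuclideanSpace ℝ (Fin m)))) ∧
      Module.finrank ℝ (affineSpan ℝ (convexHull ℝ ((Z X hom f : Finset _) :
        Set (EuclideanSpace ℝ (Fin m))))).direction = d - 1 := by
    intro f hf
    have hne : (Z X hom f).Nonempty := by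
      rw [← Finset.card_pos]
      have h1 := rk_le_card (a := hom) (X := Z X hom f)
      have h2 := hf.2
      omega
    refine ⟨?_, exposed_of_zero Z_sub hne hf.1 fun x hx => ?_, ?_⟩
    · obtain ⟨t, ht⟩ := hne
      exact ⟨t, subset_convexHull ℝ _ (by exact_mod_cast ht)⟩
    · rw [mem_Z]; exact ⟨fun h => ⟨hx, h⟩, fun h => h.2⟩
    · rw [direction_hull]
      have h1 := rk_hom hne
      have h2 := hf.2
      omega
  refine ⟨?_, ?_, ?_, ?_⟩
  · obtain ⟨s, hs1, hs2, hs3⟩ := exists_facets k X hom (LinearMap.snd ℝ _ ℝ) hp hi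
      (fun T h _ => hT T h)
    refine ⟨s.image (fun f => convexHull ℝ ((Z X hom f : Finset _) :
      Set (EuclideanSpace ℝ (Fin m)))), Finset.card_image_le.trans hs1, ?_, ?_⟩
    · intro F hF
      obtain ⟨f, hf, rfl⟩ := Finset.mem_image.1 hF
      exact hfac f (hs2 f hf)
    · intro x hx
      by_contra hall
      push Not at hall
      rw [Finset.mem_convexHull'] at hx
      obtain ⟨w, hw0, hw1, hwx⟩ := hx
      obtain ⟨y, hy, hwy⟩ : ∃ y ∈ X, 0 < w y := by
        by_contra hno'
        push Not at hno'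
        have := Finset.sum_nonpos hno'
        rw [hw1] at this
        linarith
      obtain ⟨f, hf, hfy⟩ := hs3 y hy (by simp [hom])
      have h1 := hall _ (Finset.mem_image_of_mem _ hf)
      have h2 := zero_on_hull (fun y hy => (mem_Z.1 hy).2) h1
      have h3 : hom x = ∑ y ∈ X, w y • hom y := by
        rw [← hwx]
        refine Prod.ext ?_ ?_
        · simp only [hom, Prod.fst_sum, Prod.smul_fst]
        · simp only [hom, Prod.snd_sum, Prod.smul_snd, smul_eq_mul, mul_one, hw1]
      rw [h3, map_sum] at h2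
      have h4 : 0 < ∑ y ∈ X, f (w y • hom y) := by
        refine lt_of_lt_of_le ?_ (Finset.single_le_sum (f := fun y => f (w y • hom y))
          (fun z hz => ?_) hy)
        · rw [map_smul, smul_eq_mul]; exact mul_pos hwy hfy
        · rw [map_smul, smul_eq_mul]; exact mul_nonneg (hw0 z hz) ((hs2 f hf).1 z hz)
      linarith
  · have h1 := card_bound hk (d + 1 - k) X hom hp hi (by rw [hr]; omega) hT
    have h2 : d + 1 - k + 1 = d + 2 - k := by omega
    rw [h2] at h1
    rwa [← hXext', Set.ncard_coe_finset]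
  · exact Set.Finite.subset (finite_exposed (X := X)) fun F hF => ⟨hF.1, hF.2.1⟩
  · refine (facets_bound hp hi hT hr).trans (Nat.mul_le_mul_left _ ?_)
    have hfin : {F : Set (EuclideanSpace ℝ (Fin m)) | F.Nonempty ∧
      IsExposed ℝ (convexHull ℝ (X : Set (EuclideanSpace ℝ (Fin m)))) F ∧
      Module.finrank ℝ (affineSpan ℝ F).direction = d - 1}.Finite :=
      Set.Finite.subset (finite_exposed (X := X)) fun F hF => ⟨hF.1, hF.2.1⟩
    rw [Set.ncard_eq_toFinset_card _ hfin]
    refine Finset.card_le_card_of_injOn (fun Y => convexHull ℝ (Y : Set _)) (fun Y hY => ?_)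
      fun Y hY Y' hY' h => ?_
    · obtain ⟨f, hf, rfl⟩ := mem_facets.1 (by exact_mod_cast hY)
      simp only [Set.Finite.coe_toFinset, Set.mem_ofPred_eq]
      exact hfac f hf
    · obtain ⟨f, hf, rfl⟩ := mem_facets.1 (by exact_mod_cast hY)
      obtain ⟨g, hg, rfl⟩ := mem_facets.1 (by exact_mod_cast hY')
      have h' : convexHull ℝ ((Z X hom f : Finset _) : Set (EuclideanSpace ℝ (Fin m))) =
        convexHull ℝ ((Z X hom g : Finset _) : Set (EuclideanSpace ℝ (Fin m))) := h
      refine Finset.Subset.antisymm (fun y hy => ?_) (fun y hy => ?_)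
      · have h1 : y ∈ convexHull ℝ ((Z X hom g : Finset _) : Set (EuclideanSpace ℝ (Fin m))) := by
          rw [← h']; exact subset_convexHull ℝ _ (by exact_mod_cast hy)
        exact mem_Z.2 ⟨Z_sub hy, zero_on_hull (fun y hy => (mem_Z.1 hy).2) h1⟩
      · have h1 : y ∈ convexHull ℝ ((Z X hom f : Finset _) : Set (EuclideanSpace ℝ (Fin m))) := by
          rw [h']; exact subset_convexHull ℝ _ (by exact_mod_cast hy)
        exact mem_Z.2 ⟨Z_sub hy, zero_on_hull (fun y hy => (mem_Z.1 hy).2) h1⟩

end Pool.Agent.Lib.MP_257afc_co.BB
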